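import Pool.Agent.Helper87.FQ.Le
import Pool.Agent.Helper2.BC.Seq
import Pool.Agent.Helper77.AE.Ten

/-!
# Project FQ (MP_0f6f3f_an), layer TZA: the kernel of the restriction to the Levi factor

`mem_Mh_iff`: `Mh b H` is the centraliser of `ad H` in the identity component. `rsS_exH`: `exp(t ad H)` restricts to `1`. `rsS_mem_KS'`: an orthogonal matrix times `exp(t ad H)` restricts to an orthogonal matrix. `exists_ker`: the kernel of
the restriction is the product of a compact group and of `exp(t ad H)` if `H` spans the intersection of the kernels of the roots which vanish at `H`.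
-/

set_option autoImplicit false
set_option linter.unusedSectionVars false

open Matrix Set Filter Topology MeasureTheory

namespace Pool.Agent.Helper87.FQ

open Pool.Agent.Helper96.SA Pool.Agent.Helper96.TO Pool.Agent.Helper35.TZ Pool.Agent.Helper69.SLN Pool.Agent.Helper2.BC
open Pool.Agent.Helper77.TZ2 (kf_comm kf_inv kf_theta)

variable {L : Type} [LieRing L] [LieAlgebra ℝ L] {N : ℕ} {θ : L ≃ₗ⁅ℝ⁆ L} {b : Module.Basis (Fin N) ℝ L} {A : Submodule ℝ L}

/-- An automorphism fixes `H` if and only if it commutes with `ad H`. -/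
theorem fix_iff_comm (h : CartanBasis θ b) {H : L} {g : GL (Fin N) ℝ} (hg : g ∈ autG b) :
    ac b g H = H ↔ (g : Mat N) * TT_to b H = TT_to b H * (g : Mat N) := by
  have h1 : (g : Mat N) * TT_to b H * ((g⁻¹ : GL (Fin N) ℝ) : Mat N) = TT_to b (ac b g H) := by
    apply (Matrix.toLin b b).injective
    refine LinearMap.ext fun y => ?_
    rw [Matrix.toLin_mul b b b, Matrix.toLin_mul b b b, toLin_TT_to]
    change ac b g (Matrix.toLin b b (TT_to b H) (ac b g⁻¹ y)) = _
    rw [toLin_TT_to, ac_lie hg, ac_inv']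
  constructor
  · intro h2
    rw [h2] at h1
    have h3 := congrArg (fun B => B * (g : Mat N)) h1
    simp only [Matrix.mul_assoc, g.inv_mul, Matrix.mul_one] at h3
    exact h3
  · intro h2
    rw [h2, Matrix.mul_assoc, g.mul_inv, Matrix.mul_one] at h1
    exact (TT_inj_to h h1).symm

theorem mem_Mh_iff (h : CartanBasis θ b) {H : L} {g : GL (Fin N) ℝ} :
    g ∈ Mh b H ↔ g ∈ autC b ∧ (g : Mat N) * TT_to b H = TT_to b H * (g : Mat N) := by
  constructor
  · intro hg
    exact ⟨hg.1, (fix_iff_comm h (autC_le b hg.1)).1 hg.2⟩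
  · intro hg
    exact ⟨hg.1, (fix_iff_comm h (autC_le b hg.1)).2 hg.2⟩

theorem exH_mem (b : Module.Basis (Fin N) ℝ L) (H : L) (t : ℝ) : ex (t • TT_to b H) ∈ Mh b H := by
  rw [← map_smul]
  exact ex_mem_Mh (by rw [lie_smul, lie_self, smul_zero])

section

variable (h : CartanBasis θ b) (hA : MaxFlat θ A) (H : A)

/-- `exp(t ad H)` restricts to `1`. -/
theorem rsS_exH (t : ℝ) : rsS h hA H ⟨ex (t • TT_to b (H : L)), exH_mem b H t⟩ = 1 := by
  apply Subtype.ext
  rw [rsS_coe]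
  apply ac_inj (c := bS h hA H)
  intro x
  apply Subtype.ext
  rw [ac_res, OneMemClass.coe_one, ac_one]
  change ac b (ex (t • TT_to b (H : L))) (x : L) = x
  rw [← map_smul]
  exact ac_ex_fix b (by rw [smul_lie, comm_lsub x.2, smul_zero])

/-- **(a1)** An orthogonal matrix times `exp(t ad H)` restricts to an orthogonal matrix. -/
theorem rsS_mem_KS' {g : Mh b (H : L)} {t : ℝ} {u : GL (Fin N) ℝ} (hu : ti u = u)
    (hg : (g : GL (Fin N) ℝ) = ex (t • TT_to b (H : L)) * u) : rsS h hA H g ∈ KS h hA H := by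
  have hu' : u ∈ Mh b (H : L) := by
    have h1 : u = (ex (t • TT_to b (H : L)))⁻¹ * g := by rw [hg, inv_mul_cancel_left]
    rw [h1]
    exact (Mh b (H : L)).mul_mem ((Mh b (H : L)).inv_mem (exH_mem b H t)) g.2
  have h1 : g = ⟨ex (t • TT_to b (H : L)), exH_mem b H t⟩ * ⟨u, hu'⟩ := Subtype.ext hg
  rw [h1, map_mul, rsS_exH, one_mul]
  exact rsS_mem_KS h hA H hu

include h hA in
/-- The symmetric elements of the centraliser of `H` which commute with the Levi factor are in the flat. -/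
theorem mem_flat_of {x : L} (hx : θ x = -x) (hH : ⁅(H : L), x⁆ = 0) (hc : ∀ v ∈ lsub A H, ⁅x, v⁆ = 0) :
    ∃ hxA : x ∈ A, ∀ φ ∈ rootsL A, φ H = 0 → φ ⟨x, hxA⟩ = 0 := by
  have h1 : ∀ w ∈ lsub A H, killingForm ℝ L x w = 0 := by
    intro w hw
    have key : ∀ w ∈ Submodule.span ℝ {z : L | ∃ u ∈ lsub A H, ∃ v ∈ lsub A H, z = ⁅u, v⁆}, killingForm ℝ L x w = 0 := by
      intro w h1
      induction h1 using Submodule.span_induction with
      | mem y hy =>
        obtain ⟨u, hu, v, hv, rfl⟩ := hy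
        rw [← kf_inv, hc u hu, map_zero, LinearMap.zero_apply]
      | zero => exact map_zero _
      | add x y _ _ hx hy => rw [map_add, hx, hy, add_zero]
      | smul c x _ hx => rw [map_smul, hx, smul_zero]
    exact key _ (perf_lsub h hA hw)
  have hxA : x ∈ A := by
    refine hA.max x hx fun a ha => ?_
    have h2 := orth_comm h hA hH h1 ⟨a, ha⟩
    change ⁅a, x⁆ = 0 at h2
    rw [← lie_skew, h2, neg_zero]
  refine ⟨hxA, fun φ hφ hφH => ?_⟩
  obtain ⟨h0, v, hv0, hv⟩ := hφ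
  have h2 := hc v (Wv.mem_lsub hv h0 hφH)
  have h3 := hv ⟨x, hxA⟩
  change ⁅x, v⁆ = _ at h3
  rw [h2] at h3
  exact (smul_eq_zero.1 h3.symm).resolve_right hv0

/-- **(a2)** The kernel of the restriction. -/
theorem exists_ker (hH : ∀ x : A, (∀ φ ∈ rootsL A, φ H = 0 → φ x = 0) → ∃ c : ℝ, x = c • H) {g : Mh b (H : L)} (hg : rsS h hA H g = 1) :
    ∃ c : Mh b (H : L), ti (c : GL (Fin N) ℝ) = c ∧ rsS h hA H c = 1 ∧ ∃ t : ℝ, (g : GL (Fin N) ℝ) = c * ex (t • TT_to b (H : L)) := by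
  obtain ⟨k, hk, hkt, p, hp, hpt, hgk, x, hx, hHx, hpx⟩ := exists_polar h (hA.neg _ H.2) g.2
  -- the restriction of `p` is `1`
  have e1 : rsS h hA H ⟨k, hk⟩ * rsS h hA H ⟨p, hp⟩ = 1 := by
    rw [← map_mul, ← hg]
    congr 1
    exact Subtype.ext hgk.symm
  have e2 : rsS h hA H ⟨p, hp⟩ ∈ KS h hA H := by
    rw [← inv_eq_of_mul_eq_one_right e1]
    exact (KS h hA H).inv_mem (rsS_mem_KS h hA H hkt)
  have e3 : ti (res h hA H ⟨p, hp⟩) = (res h hA H ⟨p, hp⟩)⁻¹ := by
    rw [← res_ti h hA H ⟨p, hp⟩ (ti_mem_Mh h (hA.neg _ H.2) hp), ← map_inv]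
    congr 1
    exact Subtype.ext hpt
  have e4 : res h hA H ⟨p, hp⟩ * res h hA H ⟨p, hp⟩ = 1 := by
    have e5 : ti (res h hA H ⟨p, hp⟩) = res h hA H ⟨p, hp⟩ := e2
    rw [e3] at e5
    calc res h hA H ⟨p, hp⟩ * res h hA H ⟨p, hp⟩ = (res h hA H ⟨p, hp⟩)⁻¹ * res h hA H ⟨p, hp⟩ := by rw [e5]
      _ = 1 := inv_mul_cancel _
  -- `exp (2 ad x)` is trivial on the Levi factor
  have hXt : (TT_to b x)ᵀ = TT_to b x := (TT_symm_iff_to h x).2 hx
  have e5 : ∀ v ∈ lsub A H, ⁅x, v⁆ = 0 := by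
    intro v hv
    have e6 := congrArg (fun u => (ac (bS h hA H) u ⟨v, hv⟩ : L)) e4
    simp only [ac_mul, ac_res, ac_one] at e6
    have e7 : ac b (ex ((2 : ℕ) • TT_to b x)) v = v := by
      rw [two_smul, ex_add rfl, ac_mul, ← hpx]
      exact e6
    have e8 : ((ex ((2 : ℕ) • TT_to b x) : GL (Fin N) ℝ) : Mat N) *ᵥ b.equivFun v = b.equivFun v := by
      have e9 : b.equivFun (ac b (ex ((2 : ℕ) • TT_to b x)) v) = ((ex ((2 : ℕ) • TT_to b x) : GL (Fin N) ℝ) : Mat N) *ᵥ b.equivFun v :=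
        toLin_coord b _ _
      rw [← e9, e7]
    have e9 := ker_of_fix (X := (2 : ℕ) • TT_to b x) (by rw [transpose_smul, hXt]) e8
    rw [Matrix.smul_mulVec, smul_eq_zero] at e9
    apply b.equivFun.injective
    rw [map_zero, ← toLin_TT_to b, toLin_coord, e9.resolve_left two_ne_zero]
  obtain ⟨hxA, hφ⟩ := mem_flat_of h hA H hx hHx e5
  obtain ⟨c, hc⟩ := hH ⟨x, hxA⟩ hφ
  have hc' : x = c • (H : L) := congrArg Subtype.val hc
  have hp' : p = ex (c • TT_to b (H : L)) := by rw [hpx, hc', map_smul]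
  refine ⟨⟨k, hk⟩, hkt, ?_, c, by rw [hgk, hp']⟩
  have e6 : rsS h hA H ⟨p, hp⟩ = 1 := by
    have e7 : (⟨p, hp⟩ : Mh b (H : L)) = ⟨ex (c • TT_to b (H : L)), exH_mem b H c⟩ := Subtype.ext hp'
    rw [e7, rsS_exH]
  rwa [e6, mul_one] at e1

end

section cow

open Pool.Agent.Helper77.AE (Smp lieSpan_comm)

variable {ι : Type} {al : ι → Module.Dual ℝ A}

/-- A point of the flat at which all simple roots vanish is zero. -/
theorem eq_zero_of_al (h : CartanBasis θ b) (hS : Smp A al) {x : A} (hx : ∀ i, al i x = 0) : x = 0 := by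
  apply Subtype.ext
  refine center_zero h fun z => lieSpan_comm hS.gen (fun v hv => ?_) z
  obtain ⟨i, hv | hv⟩ := hv
  · rw [hv x, hx i, zero_smul]
  · rw [hv x, LinearMap.neg_apply, hx i, neg_zero, zero_smul]

/-- **The hypothesis of `exists_ker` for the fundamental coweights.** -/
theorem line_of_cow (h : CartanBasis θ b) (hS : Smp A al) {j : ι} {H : A} (hj : al j H = 1) (hi : ∀ i, i ≠ j → al i H = 0) :
    ∀ x : A, (∀ φ ∈ rootsL A, φ H = 0 → φ x = 0) → ∃ c : ℝ, x = c • H := by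
  intro x hx
  refine ⟨al j x, sub_eq_zero.1 (eq_zero_of_al h hS (al := al) fun i => ?_)⟩
  rw [map_sub, map_smul, smul_eq_mul]
  by_cases hij : i = j
  · rw [hij, hj, mul_one, sub_self]
  · rw [hi i hij, mul_zero, sub_zero, hx _ (hS.root i) (hi i hij)]

end cow

end Pool.Agent.Helper87.FQ
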