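import Pool.Agent.Helper87.FQ.Lc
import Pool.Agent.Helper2.BC.Exp

/-!
# Project FQ (MP_0f6f3f_an), layer TZA: the restriction to the Levi factor

`bS h hA H`: a Cartan basis of `lsub A H`. `Mh b H`: the centraliser of `H` in the identity component of `Aut(L)`. `res h hA H`: the restriction of the elements of `Mh b H` to `lsub A H`, a continuous homomorphism (`ac_res`).
`res_ex`: the restriction of `exp(ad x)`, `x ∈ lsub A H`.
-/

set_option autoImplicit false
set_option linter.unusedSectionVars false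

open Matrix Set Filter Topology

namespace Pool.Agent.Helper87.FQ

open Pool.Agent.Helper96.SA Pool.Agent.Helper96.TO Pool.Agent.Helper35.TZ Pool.Agent.Helper69.SLN Pool.Agent.Helper2.BC

section inter

open scoped Matrix.Norms.Operator

/-- Intertwiners of the exponentials. -/
theorem exp_inter {m n : ℕ} {X : Mat n} {Y : Mat m} {J : Matrix (Fin n) (Fin m) ℝ} (h : X * J = J * Y) :
    NormedSpace.exp X * J = J * NormedSpace.exp Y := by
  have h1 : ∀ k : ℕ, X ^ k * J = J * Y ^ k := by
    intro k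
    induction k with
    | zero => rw [pow_zero, pow_zero, Matrix.one_mul, Matrix.mul_one]
    | succ k ih => rw [pow_succ, Matrix.mul_assoc, h, ← Matrix.mul_assoc, ih, Matrix.mul_assoc, ← pow_succ]
  have h2 : HasSum (fun k : ℕ => ((k.factorial : ℝ)⁻¹ • X ^ k) * J) (NormedSpace.exp X * J) :=
    (NormedSpace.exp_series_hasSum_exp' (𝕂 := ℝ) X).map (AddMonoidHom.mk' (fun A : Mat n => A * J) (fun A B => Matrix.add_mul A B J))
      (continuous_id.matrix_mul continuous_const)
  have h3 : HasSum (fun k : ℕ => J * ((k.factorial : ℝ)⁻¹ • Y ^ k)) (J * NormedSpace.exp Y) :=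
    (NormedSpace.exp_series_hasSum_exp' (𝕂 := ℝ) Y).map (AddMonoidHom.mk' (fun A : Mat m => J * A) (fun A B => Matrix.mul_add J A B))
      (continuous_const.matrix_mul continuous_id)
  refine h2.unique ?_
  have h4 : (fun k : ℕ => ((k.factorial : ℝ)⁻¹ • X ^ k) * J) = fun k : ℕ => J * ((k.factorial : ℝ)⁻¹ • Y ^ k) := by
    funext k
    rw [Matrix.smul_mul, Matrix.mul_smul, h1]
  rw [h4]
  exact h3

end inter

variable {L : Type} [LieRing L] [LieAlgebra ℝ L] {N : ℕ} {θ : L ≃ₗ⁅ℝ⁆ L} {b : Module.Basis (Fin N) ℝ L} {A : Submodule ℝ L}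

/-- Matrix coefficients are continuous. -/
theorem continuous_fn (b : Module.Basis (Fin N) ℝ L) (f : L →ₗ[ℝ] ℝ) (x : L) : Continuous fun g : GL (Fin N) ℝ => f (ac b g x) := by
  have h1 : ∀ g : GL (Fin N) ℝ, f (ac b g x) = ∑ k, ((g : Mat N) *ᵥ b.equivFun x) k * f (b k) := by
    intro g
    have h2 : ac b g x = ∑ k, ((g : Mat N) *ᵥ b.equivFun x) k • b k := by
      rw [← toLin_coord]
      exact (b.sum_equivFun _).symm
    rw [h2, map_sum]
    refine Finset.sum_congr rfl fun k _ => ?_
    rw [map_smul, smul_eq_mul]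
  simp_rw [h1]
  have h2 : Continuous fun g : GL (Fin N) ℝ => (g : Mat N) *ᵥ b.equivFun x := Units.continuous_val.matrix_mulVec continuous_const
  exact continuous_finsetSum _ fun k _ => ((continuous_apply k).comp h2).mul continuous_const

/-- The centraliser of `H` in the identity component of `Aut(L)`. -/
def Mh (b : Module.Basis (Fin N) ℝ L) (H : L) : Subgroup (GL (Fin N) ℝ) where
  carrier := {g | g ∈ autC b ∧ ac b g H = H}
  mul_mem' {g k} hg hk := ⟨(autC b).mul_mem hg.1 hk.1, by rw [ac_mul, hk.2, hg.2]⟩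
  one_mem' := ⟨(autC b).one_mem, ac_one H⟩
  inv_mem' {g} hg := ⟨(autC b).inv_mem hg.1, by
    have h1 := ac_inv (b := b) g H
    rwa [hg.2] at h1⟩

theorem mem_Mh {H : L} {g : GL (Fin N) ℝ} : g ∈ Mh b H ↔ g ∈ autC b ∧ ac b g H = H := Iff.rfl

theorem continuous_ac_coord (b : Module.Basis (Fin N) ℝ L) (x : L) : Continuous fun g : GL (Fin N) ℝ => b.equivFun (ac b g x) := by
  have h1 : ∀ g : GL (Fin N) ℝ, b.equivFun (ac b g x) = (g : Mat N) *ᵥ b.equivFun x := fun g => toLin_coord b _ x
  simp_rw [h1]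
  exact Units.continuous_val.matrix_mulVec continuous_const

theorem isClosed_Mh (H : L) : IsClosed (Mh b H : Set (GL (Fin N) ℝ)) := by
  have h1 : (Mh b H : Set (GL (Fin N) ℝ)) = (autC b : Set (GL (Fin N) ℝ)) ∩ {g | b.equivFun (ac b g H) = b.equivFun H} := by
    ext g
    constructor
    · intro hg
      exact ⟨hg.1, by rw [Set.mem_ofPred_eq, hg.2]⟩
    · intro hg
      exact ⟨hg.1, b.equivFun.injective hg.2⟩
  rw [h1]
  exact (Pool.Agent.Helper66.BD.isAdj_component b).closed.inter (isClosed_eq (continuous_ac_coord b H) continuous_const)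

/-- The elements `exp(ad x)`, `[H, x] = 0`. -/
theorem ex_mem_Mh {H x : L} (hx : ⁅H, x⁆ = 0) : ex (TT_to b x) ∈ Mh b H :=
  ⟨ex_mem_autC b x, ac_ex_fix b (by rw [← lie_skew, hx, neg_zero])⟩

section res

variable (h : CartanBasis θ b) (hA : MaxFlat θ A) (H : A)

theorem exists_bS : ∃ bS : Module.Basis (Fin (Module.finrank ℝ (lsub A H))) ℝ (lsub A H),
    CartanBasis (thS (lsub A H) h.invol (fun _ hx => theta_lsub hA hx)) bS :=
  exists_cb h (lsub A H) (fun _ hx => theta_lsub hA hx) fun _ hz h0 => center_lsub h hA hz h0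

/-- A Cartan basis of the Levi factor. -/
noncomputable def bS : Module.Basis (Fin (Module.finrank ℝ (lsub A H))) ℝ (lsub A H) := (exists_bS h hA H).choose

theorem cbS : CartanBasis (thS (lsub A H) h.invol (fun _ hx => theta_lsub hA hx)) (bS h hA H) := (exists_bS h hA H).choose_spec

/-- The restriction as a linear map. -/
noncomputable def rs (g : Mh b (H : L)) : lsub A H →ₗ[ℝ] lsub A H where
  toFun x := ⟨ac b (g : GL (Fin N) ℝ) (x : L), ac_lsub h hA (autC_le b g.2.1) g.2.2 x.2⟩
  map_add' x y := Subtype.ext (map_add (ac b (g : GL (Fin N) ℝ)) (x : L) (y : L))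
  map_smul' c x := Subtype.ext (map_smul (ac b (g : GL (Fin N) ℝ)) c (x : L))

theorem rs_coe (g : Mh b (H : L)) (x : lsub A H) : (rs h hA H g x : L) = ac b (g : GL (Fin N) ℝ) (x : L) := rfl

/-- The restriction as a matrix. -/
noncomputable def resm : Mh b (H : L) →* Mat (Module.finrank ℝ (lsub A H)) where
  toFun g := LinearMap.toMatrix (bS h hA H) (bS h hA H) (rs h hA H g)
  map_one' := by
    have h1 : rs h hA H 1 = LinearMap.id := by
      ext x
      exact ac_one (b := b) (x : L)
    rw [h1, LinearMap.toMatrix_id]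
  map_mul' g k := by
    have h1 : rs h hA H (g * k) = rs h hA H g ∘ₗ rs h hA H k := by
      ext x
      exact ac_mul (b := b) (g : GL (Fin N) ℝ) (k : GL (Fin N) ℝ) (x : L)
    rw [h1, LinearMap.toMatrix_comp (bS h hA H) (bS h hA H) (bS h hA H)]

/-- **The restriction to the Levi factor.** -/
noncomputable def res : Mh b (H : L) →* GL (Fin (Module.finrank ℝ (lsub A H))) ℝ := (resm h hA H).toHomUnits

theorem res_coe (g : Mh b (H : L)) : ((res h hA H g : GL (Fin (Module.finrank ℝ (lsub A H))) ℝ) : Mat (Module.finrank ℝ (lsub A H))) =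
    LinearMap.toMatrix (bS h hA H) (bS h hA H) (rs h hA H g) := rfl

theorem ac_res' (g : Mh b (H : L)) (x : lsub A H) : ac (bS h hA H) (res h hA H g) x = rs h hA H g x := by
  unfold ac
  rw [res_coe, Matrix.toLin_toMatrix]

theorem ac_res (g : Mh b (H : L)) (x : lsub A H) : (ac (bS h hA H) (res h hA H g) x : L) = ac b (g : GL (Fin N) ℝ) (x : L) := by
  rw [ac_res']
  rfl

theorem ac_inj {n : ℕ} {V : Type} [LieRing V] [LieAlgebra ℝ V] {c : Module.Basis (Fin n) ℝ V} {g k : GL (Fin n) ℝ}
    (hgk : ∀ x, ac c g x = ac c k x) : g = k := by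
  apply Units.ext
  apply (Matrix.toLin c c).injective
  exact LinearMap.ext hgk

theorem res_mem (g : Mh b (H : L)) : res h hA H g ∈ autG (bS h hA H) := by
  rw [mem_autG]
  intro x y
  change ac (bS h hA H) (res h hA H g) ⁅x, y⁆ = ⁅ac (bS h hA H) (res h hA H g) x, ac (bS h hA H) (res h hA H g) y⁆
  apply Subtype.ext
  rw [ac_res, LieSubalgebra.coe_bracket, ac_lie (autC_le b g.2.1), LieSubalgebra.coe_bracket, ac_res, ac_res]

theorem continuous_res : Continuous (res h hA H) := by
  have h1 : Continuous fun g : Mh b (H : L) => resm h hA H g := by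
    refine continuous_matrix fun i j => ?_
    obtain ⟨f, hf⟩ := LinearMap.exists_extend (p := (lsub A H).toSubmodule) ((bS h hA H).coord i)
    have h2 : ∀ g : Mh b (H : L), resm h hA H g i j = f (ac b (g : GL (Fin N) ℝ) (bS h hA H j : L)) := by
      intro g
      change LinearMap.toMatrix (bS h hA H) (bS h hA H) (rs h hA H g) i j = _
      rw [LinearMap.toMatrix_apply]
      have h3 := LinearMap.congr_fun hf (rs h hA H g (bS h hA H j))
      exact h3.symm
    simp_rw [h2]
    exact (continuous_fn b f _).comp continuous_subtype_val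
  rw [Units.continuous_iff]
  refine ⟨h1, ?_⟩
  have h2 : (fun g : Mh b (H : L) => (((res h hA H g)⁻¹ : GL (Fin (Module.finrank ℝ (lsub A H))) ℝ) : Mat (Module.finrank ℝ (lsub A H)))) =
      fun g => resm h hA H g⁻¹ := by
    funext g
    rw [← map_inv]
    rfl
  exact h2 ▸ h1.comp continuous_inv

/-- The restriction of `exp(ad x)`. -/
theorem res_ex (x : lsub A H) : res h hA H ⟨ex (TT_to b (x : L)), ex_mem_Mh (comm_lsub x.2)⟩ = ex (TT_to (bS h hA H) x) := by
  apply ac_inj (c := bS h hA H)
  intro y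
  apply Subtype.ext
  rw [ac_res]
  change ac b (ex (TT_to b (x : L))) (y : L) = _
  let ι : lsub A H →ₗ[ℝ] L := (lsub A H).toSubmodule.subtype
  let J := LinearMap.toMatrix (bS h hA H) b ι
  have h1 : TT_to b (x : L) * J = J * TT_to (bS h hA H) x := by
    rw [TT_apply_to, TT_apply_to, ← LinearMap.toMatrix_comp (bS h hA H) b b, ← LinearMap.toMatrix_comp (bS h hA H) (bS h hA H) b]
    rfl
  have h2 := congrArg (Matrix.toLin (bS h hA H) b) (exp_inter h1)
  rw [Matrix.toLin_mul (bS h hA H) b b, Matrix.toLin_mul (bS h hA H) (bS h hA H) b, Matrix.toLin_toMatrix] at h2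
  exact LinearMap.congr_fun h2 y

end res

end Pool.Agent.Helper87.FQ
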