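import Pool.Agent.Helper3.Lie
import Pool.Agent.Helper35.TZ.Conn

/-!
# Project FQ (MP_0f6f3f_an), layer TZA: the closed subgroup theorem with small logarithms

`closed_small`: near `1` the elements of a closed group are the `exp X`, `X` a small element of the Lie algebra (the proof of `Helper3/Lie.lean` with the norm bound). `nhds_small`: the same for a closed subgroup of `GL(N, ℝ)`.
-/

set_option autoImplicit false
set_option linter.unusedSectionVars false

namespace Pool.Agent.Helper87.FQ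

section small

open Topology Filter Set NormedSpace Pool.Agent.Helper3.Lie

variable {E : Type*} [NormedRing E] [NormedAlgebra ℝ E] [CompleteSpace E] (S : ClosedGp E) [FiniteDimensional ℝ E]

/-- **Closed subgroup theorem**, with small logarithms. -/
theorem closed_small {r : ℝ} (hr : 0 < r) : ∃ W ∈ 𝓝 (1 : E), ∀ k ∈ S.K, k ∈ W → ∃ X ∈ lieSub S, ‖X‖ ≤ r ∧ exp X = k := by
  by_contra hcon
  push Not at hcon
  obtain ⟨P, hP⟩ := (lieSub S).exists_isCompl
  -- the local diffeomorphism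
  let Φ : lieSub S × P → E := fun p => exp (p.1 : E) * exp (p.2 : E)
  let L : (lieSub S × P) ≃L[ℝ] E := ((lieSub S).prodEquivOfIsCompl P hP).toContinuousLinearEquiv
  have hL : ∀ p, L p = (p.1 : E) + p.2 := fun p => rfl
  have hΦ0 : Φ 0 = 1 := by simp [Φ]
  have hΦ : HasStrictFDerivAt Φ (L : (lieSub S × P) →L[ℝ] E) 0 := by
    have h1 : HasStrictFDerivAt (fun p : lieSub S × P => exp (p.1 : E))
        ((lieSub S).subtypeL.comp (ContinuousLinearMap.fst ℝ (lieSub S) P)) 0 := by
      have h2 : HasStrictFDerivAt (fun p : lieSub S × P => (p.1 : E))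
          ((lieSub S).subtypeL.comp (ContinuousLinearMap.fst ℝ (lieSub S) P)) 0 :=
        ((lieSub S).subtypeL.comp (ContinuousLinearMap.fst ℝ (lieSub S) P)).hasStrictFDerivAt
      have h3 : HasStrictFDerivAt (exp : E → E)
          ((ContinuousLinearEquiv.refl ℝ E : E ≃L[ℝ] E) : E →L[ℝ] E)
          ((fun p : lieSub S × P => (p.1 : E)) 0) := hasStrict
      exact h3.comp (0 : lieSub S × P) h2
    have h1' : HasStrictFDerivAt (fun p : lieSub S × P => exp (p.2 : E))
        (P.subtypeL.comp (ContinuousLinearMap.snd ℝ (lieSub S) P)) 0 := by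
      have h2 : HasStrictFDerivAt (fun p : lieSub S × P => (p.2 : E))
          (P.subtypeL.comp (ContinuousLinearMap.snd ℝ (lieSub S) P)) 0 :=
        (P.subtypeL.comp (ContinuousLinearMap.snd ℝ (lieSub S) P)).hasStrictFDerivAt
      have h3 : HasStrictFDerivAt (exp : E → E)
          ((ContinuousLinearEquiv.refl ℝ E : E ≃L[ℝ] E) : E →L[ℝ] E)
          ((fun p : lieSub S × P => (p.2 : E)) 0) := hasStrict
      exact h3.comp (0 : lieSub S × P) h2
    have h4 := h1.fun_mul' h1'
    have e : (exp ((0 : lieSub S × P).1 : E) •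
        (P.subtypeL.comp (ContinuousLinearMap.snd ℝ (lieSub S) P)) +
        MulOpposite.op (exp ((0 : lieSub S × P).2 : E)) •
          ((lieSub S).subtypeL.comp (ContinuousLinearMap.fst ℝ (lieSub S) P))) =
        (L : (lieSub S × P) →L[ℝ] E) := by
      apply ContinuousLinearMap.ext
      rintro ⟨X, Y⟩
      have e2 : (L : (lieSub S × P) →L[ℝ] E) (X, Y) = (X : E) + Y := hL _
      rw [e2]
      simp [add_comm]
    rw [e] at h4
    exact h4
  have hmap : map Φ (𝓝 0) = 𝓝 (1 : E) := by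
    rw [← hΦ0]
    exact hΦ.map_nhds_eq_of_equiv
  have hfreq0 : ∃ᶠ p in 𝓝 (0 : lieSub S × P), Φ p ∈ S.K ∧ ∀ X ∈ lieSub S, ‖X‖ ≤ r → exp X ≠ Φ p := by
    have h1 : ∃ᶠ k in 𝓝 (1 : E), k ∈ S.K ∧ ∀ X ∈ lieSub S, ‖X‖ ≤ r → exp X ≠ k := by
      rw [frequently_iff]
      intro W hW
      obtain ⟨k, hk, hkW, hk2⟩ := hcon W hW
      exact ⟨k, hkW, hk, hk2⟩
    rw [← hmap] at h1
    exact frequently_map.mp h1
  have hsm : ∀ᶠ p in 𝓝 (0 : lieSub S × P), ‖(p.1 : E)‖ ≤ r := by
    have h1 : Continuous fun p : lieSub S × P => ‖(p.1 : E)‖ := (continuous_subtype_val.comp continuous_fst).norm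
    have h2 := h1.tendsto (0 : lieSub S × P)
    have h3 : ‖(((0 : lieSub S × P).1 : lieSub S) : E)‖ = 0 := by simp
    rw [h3] at h2
    exact (h2.eventually (gt_mem_nhds hr)).mono fun p hp => le_of_lt hp
  have hfreq := hfreq0.and_eventually hsm
  obtain ⟨p, hp, hpK⟩ := exists_seq_forall_of_frequently hfreq
  have hp1 : Tendsto (fun n => (p n).1) atTop (𝓝 0) := (continuous_fst.tendsto _).comp hp
  have hp2 : Tendsto (fun n => (p n).2) atTop (𝓝 0) := (continuous_snd.tendsto _).comp hp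
  have hne : ∀ n, (p n).2 ≠ 0 := by
    intro n h0
    have h1 : Φ (p n) = exp ((p n).1 : E) := by
      simp only [Φ, h0]
      simp
    exact (hpK n).1.2 _ (p n).1.2 (hpK n).2 h1.symm
  have hexp : ∀ n, exp ((p n).2 : E) ∈ S.K := by
    intro n
    have h1 : exp ((p n).2 : E) = exp (-((p n).1 : E)) * Φ (p n) := by
      simp only [Φ]
      rw [← mul_assoc, exp_neg_mul, one_mul]
    rw [h1]
    have h2 : exp ((p n).1 : E) ∈ S.K := by
      have := (p n).1.2 1
      rwa [one_smul] at this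
    exact S.K.mul_mem (exp_neg_mem S h2) (hpK n).1.1
  -- normalised directions
  have hsph : ∀ n, (‖(p n).2‖⁻¹ • (p n).2 : P) ∈ Metric.sphere (0 : P) 1 := by
    intro n
    rw [mem_sphere_zero_iff_norm, norm_smul, norm_inv, norm_norm, inv_mul_cancel₀]
    exact norm_ne_zero_iff.mpr (hne n)
  have : ProperSpace P := FiniteDimensional.proper ℝ P
  obtain ⟨Y, hY, φ, hφ, hlim⟩ := (isCompact_sphere (0 : P) 1).tendsto_subseq hsph
  have hYl : (Y : E) ∈ lieSub S := by
    apply key S (fun n => ((p (φ n)).2 : E)) (fun n => ‖(p (φ n)).2‖⁻¹) (fun n => by positivity)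
    · have h1 := (continuous_subtype_val.tendsto (0 : P)).comp (hp2.comp hφ.tendsto_atTop)
      exact h1
    · intro n
      exact hexp (φ n)
    · have h1 := (continuous_subtype_val.tendsto Y).comp hlim
      exact h1
  have hY0 : (Y : E) = 0 := by
    have h1 : (Y : E) ∈ lieSub S ⊓ P := ⟨hYl, Y.2⟩
    rw [hP.inf_eq_bot] at h1
    exact h1
  have hY1 : Y = 0 := Subtype.ext hY0
  rw [hY1] at hY
  simp at hY

end small

open Matrix Topology Filter
open Pool.Agent.Helper96.SA Pool.Agent.Helper35.TZ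
open scoped Matrix.Norms.Operator

variable {N : ℕ}

/-- Near `1` a closed group of matrices is the image of the small elements of its Lie algebra. -/
theorem nhds_small {G : Subgroup (GL (Fin N) ℝ)} (hG : IsClosed (G : Set (GL (Fin N) ℝ))) {r : ℝ} (hr : 0 < r) :
    ∃ U ∈ 𝓝 (1 : GL (Fin N) ℝ), ∀ g ∈ G, g ∈ U → ∃ X ∈ lie G, ‖X‖ ≤ r ∧ ex X = g := by
  let S : Pool.Agent.Helper3.Lie.ClosedGp (Mat N × Mat N) :=
    { K := G.toSubmonoid.map (dbl : GL (Fin N) ℝ →* Mat N × Mat N)
      closed := isClosedEmbedding_dbl.isClosedMap _ hG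
      inv := by
        rintro _ ⟨g, hg, rfl⟩
        exact ⟨dbl g⁻¹, ⟨g⁻¹, G.inv_mem hg, rfl⟩, by rw [← map_mul, mul_inv_cancel, map_one]⟩ }
  obtain ⟨W, hW, h⟩ := closed_small S hr
  have hc : Continuous (dbl : GL (Fin N) ℝ → Mat N × Mat N) := isClosedEmbedding_dbl.continuous
  refine ⟨dbl ⁻¹' W, hc.continuousAt.preimage_mem_nhds (by rw [map_one]; exact hW), fun g hg hgU => ?_⟩
  obtain ⟨p, hp, hpr, hpg⟩ := h (dbl g) ⟨g, hg, rfl⟩ hgU
  refine ⟨p.1, fun t => ?_, ?_, ?_⟩
  · obtain ⟨g', hg', e⟩ := hp t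
    refine ⟨g', hg', ?_⟩
    have e1 := congrArg Prod.fst e
    rw [Prod.fst_exp] at e1
    exact e1
  · exact (norm_fst_le p).trans hpr
  · apply Units.ext
    have e1 := congrArg Prod.fst hpg
    rw [Prod.fst_exp] at e1
    exact e1

end Pool.Agent.Helper87.FQ
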