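import Pool.Agent.Helper87.FQ.Ld
import Pool.Agent.Helper87.FQ.Lg
import Pool.Agent.Helper84.OB.SizP

/-!
# Project FQ (MP_0f6f3f_an), layer TZA: the block group

`ti`: the inverse transpose, which is the conjugation by `θ` on the automorphisms (`ac_ti`). `exists_polar`: the polar decomposition in `Mh b H`. `SS h hA H`: the image of `res h hA H`, an open subgroup of `Aut(lsub A H)`, closed in
`GL(d, ℝ)`, `d = dim (lsub A H)`. `exists_sizS`: a size function of dimension `d`; `unimodular_SS`. `rsS`: the restriction as a homomorphism onto `SS`, open. `KS`: the orthogonal elements, compact.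
-/

set_option autoImplicit false
set_option linter.unusedSectionVars false

open Matrix Set Filter Topology MeasureTheory

namespace Pool.Agent.Helper87.FQ

open Pool.Agent.Helper96.SA Pool.Agent.Helper96.TO Pool.Agent.Helper35.TZ Pool.Agent.Helper69.SLN Pool.Agent.Helper2.BC
open Pool.Agent.Helper84.OB (Chart rj exists_siz isCompact_orth)
open Pool.Agent.Helper43.TZ (Siz)

section ti

variable {n : ℕ}

/-- The inverse transpose. -/
noncomputable def ti : GL (Fin n) ℝ →* GL (Fin n) ℝ where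
  toFun g := ⟨((g⁻¹ : GL (Fin n) ℝ) : Mat n)ᵀ, (g : Mat n)ᵀ, by rw [← transpose_mul, g.mul_inv, transpose_one],
    by rw [← transpose_mul, g.inv_mul, transpose_one]⟩
  map_one' := by
    apply Units.ext
    change (((1 : GL (Fin n) ℝ)⁻¹ : GL (Fin n) ℝ) : Mat n)ᵀ = 1
    rw [inv_one, Units.val_one, transpose_one]
  map_mul' g k := by
    apply Units.ext
    change (((g * k)⁻¹ : GL (Fin n) ℝ) : Mat n)ᵀ = ((g⁻¹ : GL (Fin n) ℝ) : Mat n)ᵀ * ((k⁻¹ : GL (Fin n) ℝ) : Mat n)ᵀ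
    rw [_root_.mul_inv_rev, Units.val_mul, transpose_mul]

theorem ti_coe (g : GL (Fin n) ℝ) : ((ti g : GL (Fin n) ℝ) : Mat n) = ((g⁻¹ : GL (Fin n) ℝ) : Mat n)ᵀ := rfl

theorem ti_inv_coe (g : GL (Fin n) ℝ) : (((ti g)⁻¹ : GL (Fin n) ℝ) : Mat n) = (g : Mat n)ᵀ := rfl

theorem ti_ti (g : GL (Fin n) ℝ) : ti (ti g) = g := by
  apply Units.ext
  rw [ti_coe, ti_inv_coe, transpose_transpose]

theorem continuous_ti : Continuous (ti : GL (Fin n) ℝ → GL (Fin n) ℝ) := by
  rw [Units.continuous_iff]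
  exact ⟨(Units.continuous_val.comp continuous_inv).matrix_transpose, Units.continuous_val.matrix_transpose⟩

theorem ti_eq_self {g : GL (Fin n) ℝ} : ti g = g ↔ (g : Mat n)ᵀ * (g : Mat n) = 1 := by
  constructor
  · intro h1
    have h2 := congrArg (fun k : GL (Fin n) ℝ => ((k⁻¹ : GL (Fin n) ℝ) : Mat n)) h1
    change (((ti g)⁻¹ : GL (Fin n) ℝ) : Mat n) = ((g⁻¹ : GL (Fin n) ℝ) : Mat n) at h2
    rw [ti_inv_coe] at h2
    rw [h2, g.inv_mul]
  · intro h1
    have h2 : ((g⁻¹ : GL (Fin n) ℝ) : Mat n) = (g : Mat n)ᵀ := by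
      calc ((g⁻¹ : GL (Fin n) ℝ) : Mat n) = ((g : Mat n)ᵀ * (g : Mat n)) * ((g⁻¹ : GL (Fin n) ℝ) : Mat n) := by rw [h1, Matrix.one_mul]
        _ = _ := by rw [Matrix.mul_assoc, g.mul_inv, Matrix.mul_one]
    apply Units.ext
    rw [ti_coe, h2, transpose_transpose]

theorem ti_ex {X : Mat n} (hX : Xᵀ = X) : ti (ex X) = (ex X)⁻¹ := by
  apply Units.ext
  rw [ti_coe, ← ex_neg, ex_transpose, transpose_neg, hX]

end ti

variable {L : Type} [LieRing L] [LieAlgebra ℝ L] {N : ℕ} {θ : L ≃ₗ⁅ℝ⁆ L} {b : Module.Basis (Fin N) ℝ L} {A : Submodule ℝ L}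

/-- The inverse transpose is the conjugation by `θ`. -/
theorem ac_ti (h : CartanBasis θ b) {g : GL (Fin N) ℝ} (hg : g ∈ autG b) (x : L) : ac b (ti g) x = θ (ac b g (θ x)) := by
  apply b.equivFun.injective
  have hco : ∀ (z : L) (i : Fin N), b.equivFun z i = -killingForm ℝ L z (θ (b i)) := by
    intro z i
    rw [form_self h, Finset.sum_eq_single i]
    · rw [Module.Basis.equivFun_self, if_pos rfl, mul_one]
    · intro j _ hj
      rw [Module.Basis.equivFun_self, if_neg (Ne.symm hj), mul_zero]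
    · intro hi
      exact absurd (Finset.mem_univ i) hi
  funext i
  have e1 : b.equivFun (ac b (ti g) x) = ((g⁻¹ : GL (Fin N) ℝ) : Mat N)ᵀ *ᵥ b.equivFun x := toLin_coord b _ x
  have e2 : ((((g⁻¹ : GL (Fin N) ℝ) : Mat N)ᵀ) *ᵥ b.equivFun x) i = ∑ j, b.equivFun x j * b.equivFun (ac b g⁻¹ (b i)) j := by
    change ∑ j, (((g⁻¹ : GL (Fin N) ℝ) : Mat N)ᵀ) i j * b.equivFun x j = _
    refine Finset.sum_congr rfl fun j _ => ?_
    have e3 : b.equivFun (ac b g⁻¹ (b i)) = ((g⁻¹ : GL (Fin N) ℝ) : Mat N) *ᵥ b.equivFun (b i) := toLin_coord b _ _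
    have e4 : (((g⁻¹ : GL (Fin N) ℝ) : Mat N) *ᵥ b.equivFun (b i)) j = ((g⁻¹ : GL (Fin N) ℝ) : Mat N) j i := by
      change ∑ k, ((g⁻¹ : GL (Fin N) ℝ) : Mat N) j k * b.equivFun (b i) k = _
      rw [Finset.sum_eq_single i]
      · rw [Module.Basis.equivFun_self, if_pos rfl, mul_one]
      · intro k _ hk
        rw [Module.Basis.equivFun_self, if_neg (Ne.symm hk), mul_zero]
      · intro hi
        exact absurd (Finset.mem_univ i) hi
    rw [e3, e4, Matrix.transpose_apply, mul_comm]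
  rw [e1, e2, ← form_self h, hco]
  have e5 : killingForm ℝ L (θ (ac b g (θ x))) (θ (b i)) = killingForm ℝ L (θ x) (ac b g⁻¹ (b i)) := by
    rw [Pool.Agent.Helper77.TZ2.kf_theta, ← kill_ac ((autG b).inv_mem hg) (ac b g (θ x)), ac_inv]
  have e6 : killingForm ℝ L x (θ (ac b g⁻¹ (b i))) = killingForm ℝ L (θ x) (ac b g⁻¹ (b i)) := by
    rw [← Pool.Agent.Helper77.TZ2.kf_theta θ x, h.invol]
  rw [e5, e6]

/-- `SelfAdj` for the identity component. -/
theorem selfAdj_autC (h : CartanBasis θ b) : SelfAdj (autC b) := selfAdj_of_aut h (Pool.Agent.Helper66.BD.isAdj_component b)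

theorem ti_mem_autC (h : CartanBasis θ b) {g : GL (Fin N) ℝ} (hg : g ∈ autC b) : ti g ∈ autC b := by
  obtain ⟨X, hX, hXt, k, hk, hkk, rfl⟩ := polar (selfAdj_autC h) hg
  rw [map_mul, ti_eq_self.2 hkk, ti_ex hXt]
  have h1 := mem_lie.1 hX 1
  rw [one_smul] at h1
  exact (autC b).mul_mem hk ((autC b).inv_mem h1)

theorem ti_mem_Mh (h : CartanBasis θ b) {H : L} (hH : θ H = -H) {g : GL (Fin N) ℝ} (hg : g ∈ Mh b H) : ti g ∈ Mh b H :=
  ⟨ti_mem_autC h hg.1, by rw [ac_ti h (autC_le b hg.1), hH, map_neg, hg.2, map_neg, hH, neg_neg]⟩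

/-- A vector fixed by `exp X`, `X` symmetric, is in the kernel of `X`. -/
theorem ker_of_fix {n : ℕ} {X : Mat n} (hX : Xᵀ = X) {v : Fin n → ℝ} (hv : (ex X : Mat n) *ᵥ v = v) : X *ᵥ v = 0 := by
  obtain ⟨O, d, h1, h2, h3⟩ := Pool.Agent.Helper66.BD.exists_spec hX
  have h4 : ((ex X : GL (Fin n) ℝ) : Mat n) = O * diagonal (fun i => Real.exp (d i)) * Oᵀ := by
    rw [ex_coe, h3, exp_diag O h1 h2]
  obtain ⟨w, hw⟩ : ∃ w, w = Oᵀ *ᵥ v := ⟨_, rfl⟩
  have h5 : diagonal (fun i => Real.exp (d i)) *ᵥ w = w := by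
    have e := congrArg (fun u => Oᵀ *ᵥ u) hv
    simp only [Matrix.mulVec_mulVec] at e
    rw [h4, ← Matrix.mul_assoc, ← Matrix.mul_assoc, h1, Matrix.one_mul, ← Matrix.mulVec_mulVec, ← hw] at e
    exact e
  have h6 : diagonal d *ᵥ w = 0 := by
    funext i
    have e := congrFun h5 i
    rw [Matrix.mulVec_diagonal] at e
    rw [Matrix.mulVec_diagonal, Pi.zero_apply]
    by_cases hwi : w i = 0
    · rw [hwi, mul_zero]
    · have e2 : Real.exp (d i) = 1 := mul_right_cancel₀ hwi (by rw [e, one_mul])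
      rw [Real.exp_eq_one_iff] at e2
      rw [e2, zero_mul]
  rw [h3, ← Matrix.mulVec_mulVec, ← hw, ← Matrix.mulVec_mulVec, h6, Matrix.mulVec_zero]

/-- **The polar decomposition** in the centraliser of `H`. -/
theorem exists_polar (h : CartanBasis θ b) {H : L} (hH : θ H = -H) {g : GL (Fin N) ℝ} (hg : g ∈ Mh b H) :
    ∃ k ∈ Mh b H, ti k = k ∧ ∃ p ∈ Mh b H, ti p = p⁻¹ ∧ g = k * p ∧ ∃ x : L, θ x = -x ∧ ⁅H, x⁆ = 0 ∧ p = ex (TT_to b x) := by
  obtain ⟨X, hX, hXt, k, hk, hkk, hgk⟩ := polar (selfAdj_autC h) hg.1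
  have hex : ex X ∈ autC b := by
    have h1 := mem_lie.1 hX 1
    rwa [one_smul] at h1
  have hX' : X ∈ lie (autG b) := by
    rw [mem_lie] at hX ⊢
    exact fun t => autC_le b (hX t)
  obtain ⟨x, hx⟩ := TT_surj_to h hX'
  have h2 : (ti g)⁻¹ * g = ex (2 • X) := by
    rw [hgk, map_mul, ti_eq_self.2 hkk, ti_ex hXt, two_smul, ex_add rfl]
    group
  have h3 : ex (2 • X) ∈ Mh b H := by
    rw [← h2]
    exact (Mh b H).mul_mem ((Mh b H).inv_mem (ti_mem_Mh h hH hg)) hg
  have h4 : ⁅H, x⁆ = 0 := by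
    have e1 := congrArg b.equivFun h3.2
    have e2 : b.equivFun (ac b (ex (2 • X)) H) = ((ex (2 • X) : GL (Fin N) ℝ) : Mat N) *ᵥ b.equivFun H := toLin_coord b _ _
    rw [e2] at e1
    have e3 := ker_of_fix (X := 2 • X) (by rw [transpose_smul, hXt]) e1
    rw [Matrix.smul_mulVec, smul_eq_zero] at e3
    have e4 : b.equivFun ⁅x, H⁆ = X *ᵥ b.equivFun H := by
      rw [← hx, ← toLin_coord, toLin_TT_to]
    have e5 : ⁅x, H⁆ = 0 := by
      apply b.equivFun.injective
      rw [e4, map_zero, e3.resolve_left two_ne_zero]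
    rw [← lie_skew, e5, neg_zero]
  have hp : ex X ∈ Mh b H := by
    rw [← hx]
    exact ex_mem_Mh h4
  have hk' : k ∈ Mh b H := by
    have : k = g * (ex X)⁻¹ := by rw [hgk, mul_inv_cancel_right]
    rw [this]
    exact (Mh b H).mul_mem hg ((Mh b H).inv_mem hp)
  refine ⟨k, hk', ti_eq_self.2 hkk, ex X, hp, ti_ex hXt, hgk, x, ?_, h4, by rw [hx]⟩
  rw [← TT_symm_iff_to h, hx, hXt]

section SS

variable (h : CartanBasis θ b) (hA : MaxFlat θ A) (H : A)

/-- **The block group.** -/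
noncomputable def SS : Subgroup (GL (Fin (Module.finrank ℝ (lsub A H))) ℝ) := (res h hA H).range

theorem SS_le : SS h hA H ≤ autG (bS h hA H) := by
  rintro _ ⟨g, rfl⟩
  exact res_mem h hA H g

theorem ex_mem_SS (x : lsub A H) : ex (TT_to (bS h hA H) x) ∈ SS h hA H := ⟨_, res_ex h hA H x⟩

/-- Near `1` the automorphisms of the Levi factor are the `exp(ad x)`. -/
theorem nhds_autS : ∃ U ∈ 𝓝 (1 : GL (Fin (Module.finrank ℝ (lsub A H))) ℝ), ∀ g ∈ autG (bS h hA H), g ∈ U →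
    ∃ x : lsub A H, ex (TT_to (bS h hA H) x) = g := by
  obtain ⟨U, hU, h1⟩ := nhds_ex (Pool.Agent.Helper66.BD.isClosed_autG (bS h hA H))
  refine ⟨U, hU, fun g hg hgU => ?_⟩
  obtain ⟨X, hX, hXg⟩ := h1 g hg hgU
  obtain ⟨x, rfl⟩ := TT_surj_to (cbS h hA H) hX
  exact ⟨x, hXg⟩

/-- The block group is open in the automorphism group. -/
theorem isOpen_SS : IsOpen (((SS h hA H).subgroupOf (autG (bS h hA H)) : Subgroup (autG (bS h hA H))) : Set (autG (bS h hA H))) := by
  refine Subgroup.isOpen_of_mem_nhds ((SS h hA H).subgroupOf (autG (bS h hA H))) (g := (1 : autG (bS h hA H))) ?_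
  obtain ⟨U, hU, h1⟩ := nhds_autS h hA H
  have h2 : (Subtype.val : autG (bS h hA H) → GL (Fin (Module.finrank ℝ (lsub A H))) ℝ) ⁻¹' U ∈ 𝓝 (1 : autG (bS h hA H)) :=
    continuous_subtype_val.continuousAt.preimage_mem_nhds hU
  refine mem_of_superset h2 fun k hk => ?_
  obtain ⟨x, hx⟩ := h1 k.1 k.2 hk
  change (k : GL (Fin (Module.finrank ℝ (lsub A H))) ℝ) ∈ SS h hA H
  rw [← hx]
  exact ex_mem_SS h hA H x

theorem isClosed_SS : IsClosed (SS h hA H : Set (GL (Fin (Module.finrank ℝ (lsub A H))) ℝ)) := by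
  have h0 : IsClosed (((SS h hA H).subgroupOf (autG (bS h hA H)) : Subgroup (autG (bS h hA H))) : Set (autG (bS h hA H))) :=
    Subgroup.isClosed_of_isOpen ((SS h hA H).subgroupOf (autG (bS h hA H))) (isOpen_SS h hA H)
  have h1 := (Pool.Agent.Helper66.BD.isClosed_autG (bS h hA H)).isClosedEmbedding_subtypeVal.isClosedMap _ h0
  refine (congrArg IsClosed ?_).mp h1
  ext g
  constructor
  · rintro ⟨k, hk, rfl⟩
    exact hk
  · intro hg
    exact ⟨⟨g, SS_le h hA H hg⟩, hg, rfl⟩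

section top

open scoped Matrix.Norms.Operator

/-- The chart. -/
theorem chart_SS : Chart (SS h hA H).subtype (LinearMap.range (TT_to (bS h hA H))) := by
  intro r hr
  obtain ⟨U, hU, h1⟩ := nhds_small (Pool.Agent.Helper66.BD.isClosed_autG (bS h hA H)) hr
  have h2 : (Subtype.val : SS h hA H → GL (Fin (Module.finrank ℝ (lsub A H))) ℝ) ⁻¹' U ∈ 𝓝 (1 : SS h hA H) :=
    continuous_subtype_val.continuousAt.preimage_mem_nhds hU
  filter_upwards [h2] with g hg
  obtain ⟨X, hX, hxr, hx⟩ := h1 g.1 (SS_le h hA H g.2) hg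
  obtain ⟨x, rfl⟩ := TT_surj_to (cbS h hA H) hX
  refine ⟨TT_to (bS h hA H) x, ⟨x, rfl⟩, hxr, ?_⟩
  change ((g : GL (Fin (Module.finrank ℝ (lsub A H))) ℝ) : Mat (Module.finrank ℝ (lsub A H))) = _
  rw [← hx, ex_coe]

theorem finrank_chart : Module.finrank ℝ (LinearMap.range (TT_to (bS h hA H))) = Module.finrank ℝ (lsub A H) :=
  LinearMap.finrank_range_of_inj (TT_inj_to (cbS h hA H))

end top

instance locallyCompactSpace_SS : LocallyCompactSpace (SS h hA H) := (isClosed_SS h hA H).isClosedEmbedding_subtypeVal.locallyCompactSpace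

instance locallyCompactSpace_Mh (K : L) : LocallyCompactSpace (Mh b K) := (isClosed_Mh K).isClosedEmbedding_subtypeVal.locallyCompactSpace

instance secondCountableTopology_GL {n : ℕ} : SecondCountableTopology (GL (Fin n) ℝ) := isEmbedding_val.secondCountableTopology

noncomputable instance measurableSpace_SS : MeasurableSpace (SS h hA H) := borel _

instance borelSpace_SS : BorelSpace (SS h hA H) := ⟨rfl⟩

/-- The restriction as a homomorphism onto the block group. -/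
noncomputable def rsS : Mh b (H : L) →* SS h hA H := (res h hA H).rangeRestrict

theorem rsS_coe (g : Mh b (H : L)) : (rsS h hA H g : GL (Fin (Module.finrank ℝ (lsub A H))) ℝ) = res h hA H g := rfl

theorem surjective_rsS : Function.Surjective (rsS h hA H) := (res h hA H).rangeRestrict_surjective

theorem continuous_rsS : Continuous (rsS h hA H) := (continuous_res h hA H).subtype_mk _

theorem isOpenMap_rsS : IsOpenMap (rsS h hA H) :=
  MonoidHom.isOpenMap_of_sigmaCompact (rsS h hA H) (surjective_rsS h hA H) (continuous_rsS h hA H)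

/-- The orthogonal elements. -/
noncomputable def KS : Subgroup (SS h hA H) where
  carrier := {g | ti (g : GL (Fin (Module.finrank ℝ (lsub A H))) ℝ) = g}
  mul_mem' {g k} hg hk := by
    have hg' : ti (g : GL (Fin (Module.finrank ℝ (lsub A H))) ℝ) = g := hg
    have hk' : ti (k : GL (Fin (Module.finrank ℝ (lsub A H))) ℝ) = k := hk
    change ti ((g : GL (Fin (Module.finrank ℝ (lsub A H))) ℝ) * (k : GL (Fin (Module.finrank ℝ (lsub A H))) ℝ)) =
      (g : GL (Fin (Module.finrank ℝ (lsub A H))) ℝ) * (k : GL (Fin (Module.finrank ℝ (lsub A H))) ℝ)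
    rw [map_mul, hg', hk']
  one_mem' := map_one ti
  inv_mem' {g} hg := by
    have hg' : ti (g : GL (Fin (Module.finrank ℝ (lsub A H))) ℝ) = g := hg
    change ti ((g : GL (Fin (Module.finrank ℝ (lsub A H))) ℝ)⁻¹) = (g : GL (Fin (Module.finrank ℝ (lsub A H))) ℝ)⁻¹
    rw [map_inv, hg']

theorem mem_KS {g : SS h hA H} : g ∈ KS h hA H ↔ ti (g : GL (Fin (Module.finrank ℝ (lsub A H))) ℝ) = g := Iff.rfl

theorem isCompact_KS : IsCompact (KS h hA H : Set (SS h hA H)) := by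
  have hr : {B : Mat (Module.finrank ℝ (lsub A H)) | Bᵀ * B = 1} ⊆ Set.range (fun g : GL (Fin (Module.finrank ℝ (lsub A H))) ℝ =>
      (g : Mat (Module.finrank ℝ (lsub A H)))) := by
    intro B hB
    exact ⟨⟨B, Bᵀ, mul_eq_one_comm.1 hB, hB⟩, rfl⟩
  have h3 : IsCompact ((fun g : GL (Fin (Module.finrank ℝ (lsub A H))) ℝ => (g : Mat (Module.finrank ℝ (lsub A H)))) ⁻¹'
      {B : Mat (Module.finrank ℝ (lsub A H)) | Bᵀ * B = 1}) := (isEmbedding_val.isInducing.isCompact_preimage_iff hr).2 isCompact_orth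
  have h4 := (isClosed_SS h hA H).isClosedEmbedding_subtypeVal.isCompact_preimage h3
  have h5 : (KS h hA H : Set (SS h hA H)) = Subtype.val ⁻¹' ((fun g : GL (Fin (Module.finrank ℝ (lsub A H))) ℝ =>
      (g : Mat (Module.finrank ℝ (lsub A H)))) ⁻¹' {B : Mat (Module.finrank ℝ (lsub A H)) | Bᵀ * B = 1}) := by
    ext g
    exact ti_eq_self
  rw [h5]
  exact h4

/-- The restriction and the inverse transpose. -/
theorem res_ti (g : Mh b (H : L)) (hg : ti (g : GL (Fin N) ℝ) ∈ Mh b (H : L)) : res h hA H ⟨ti (g : GL (Fin N) ℝ), hg⟩ = ti (res h hA H g) := by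
  apply ac_inj (c := bS h hA H)
  intro x
  apply Subtype.ext
  rw [ac_ti (cbS h hA H) (res_mem h hA H g), ac_res, thS_coe, ac_res, thS_coe]
  exact ac_ti h (autC_le b g.2.1) (x : L)

theorem rsS_mem_KS {g : Mh b (H : L)} (hg : ti (g : GL (Fin N) ℝ) = g) : rsS h hA H g ∈ KS h hA H := by
  rw [mem_KS, rsS_coe]
  have hg' : ti (g : GL (Fin N) ℝ) ∈ Mh b (H : L) := by rw [hg]; exact g.2
  rw [← res_ti h hA H g hg']
  congr 1
  exact Subtype.ext hg

/-- The inverse transpose on the block group. -/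
noncomputable def tiS : SS h hA H ≃* SS h hA H where
  toFun g := ⟨ti (g : GL (Fin (Module.finrank ℝ (lsub A H))) ℝ), by
    obtain ⟨k, hk⟩ := g.2
    rw [← hk, ← res_ti h hA H k (ti_mem_Mh h (hA.neg _ H.2) k.2)]
    exact ⟨_, rfl⟩⟩
  invFun g := ⟨ti (g : GL (Fin (Module.finrank ℝ (lsub A H))) ℝ), by
    obtain ⟨k, hk⟩ := g.2
    rw [← hk, ← res_ti h hA H k (ti_mem_Mh h (hA.neg _ H.2) k.2)]
    exact ⟨_, rfl⟩⟩
  left_inv g := Subtype.ext (ti_ti _)
  right_inv g := Subtype.ext (ti_ti _)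
  map_mul' g k := Subtype.ext (map_mul ti _ _)

theorem tiS_coe (g : SS h hA H) : (tiS h hA H g : GL (Fin (Module.finrank ℝ (lsub A H))) ℝ) = ti (g : GL (Fin (Module.finrank ℝ (lsub A H))) ℝ) := rfl

theorem continuous_tiS : Continuous (tiS h hA H) := (continuous_ti.comp continuous_subtype_val).subtype_mk _

theorem continuous_tiS_symm : Continuous (tiS h hA H).symm := (continuous_ti.comp continuous_subtype_val).subtype_mk _

/-- **The polar decomposition** in the block group. -/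
theorem exists_polarS (g : SS h hA H) : ∃ k ∈ KS h hA H, ∃ p : SS h hA H, g = k * p ∧ tiS h hA H p = p⁻¹ := by
  obtain ⟨g, rfl⟩ := surjective_rsS h hA H g
  obtain ⟨k, hk, hkt, p, hp, hpt, hg, -⟩ := exists_polar h (hA.neg _ H.2) g.2
  refine ⟨rsS h hA H ⟨k, hk⟩, rsS_mem_KS h hA H hkt, rsS h hA H ⟨p, hp⟩, ?_, ?_⟩
  · rw [← map_mul]
    congr 1
    exact Subtype.ext hg
  · apply Subtype.ext
    rw [tiS_coe, rsS_coe, ← res_ti h hA H ⟨p, hp⟩ (ti_mem_Mh h (hA.neg _ H.2) hp), ← map_inv, rsS_coe]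
    congr 1
    exact Subtype.ext hpt

/-- **The block group is unimodular.** -/
theorem unimodular_SS (ν : Measure (SS h hA H)) [ν.IsHaarMeasure] : ν.IsMulRightInvariant :=
  Pool.Agent.Helper9.Lin.unimodular_of (tiS h hA H) (continuous_tiS h hA H) (continuous_tiS_symm h hA H) (isCompact_KS h hA H)
    (exists_polarS h hA H) ν

/-- **The size function of the block group.** -/
theorem exists_sizS (ν : Measure (SS h hA H)) [ν.IsHaarMeasure] : ∃ z : Siz (SS h hA H) ν, z.d = Module.finrank ℝ (lsub A H) ∧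
    z.ρ = rj (SS h hA H).subtype := by
  have hr := unimodular_SS h hA H ν
  obtain ⟨z, hz, hz'⟩ := exists_siz (j := (SS h hA H).subtype) (isClosed_SS h hA H).isClosedEmbedding_subtypeVal (chart_SS h hA H) ν
  exact ⟨z, by rw [hz, finrank_chart], hz'⟩

/-- Everything at once. -/
theorem exists_haarS : ∃ ν : Measure (SS h hA H), ν.IsHaarMeasure ∧ ν.IsMulRightInvariant ∧
    ∃ z : Siz (SS h hA H) ν, z.d = Module.finrank ℝ (lsub A H) ∧ z.ρ = rj (SS h hA H).subtype :=
  ⟨Measure.haar, inferInstance, unimodular_SS h hA H _, exists_sizS h hA H _⟩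

end SS

end Pool.Agent.Helper87.FQ
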