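import Pool.Agent.Helper77.TZ2.Rel
import Pool.Agent.Helper2.BC.Defs

/-!
# Project FQ (MP_0f6f3f_an), layer TZA: the Levi factor of an element of the flat

`lsub A H`: the subalgebra generated by the root spaces of the roots which vanish at `H`. It is stable under `θ`, an ideal of the centraliser of `H` (`cent_lsub`), perfect (`perf_lsub`), with trivial centre (`center_lsub`), and stable under
the automorphisms which fix `H` (`ac_lsub`).
-/

set_option autoImplicit false
set_option linter.unusedSectionVars false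

open Matrix Set

namespace Pool.Agent.Helper87.FQ

open Pool.Agent.Helper96.SA Pool.Agent.Helper96.TO Pool.Agent.Helper35.TZ Pool.Agent.Helper69.SLN Pool.Agent.Helper2.BC
open Pool.Agent.Helper77.TZ2 (kf_comm kf_inv kf_theta lie_theta_self)

variable {L : Type} [LieRing L] [LieAlgebra ℝ L] {N : ℕ} {θ : L ≃ₗ⁅ℝ⁆ L} {b : Module.Basis (Fin N) ℝ L} {A : Submodule ℝ L} {H : A}

/-- The Levi factor of `H`: the subalgebra generated by the root spaces of the roots which vanish at `H`. -/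
def lsub (A : Submodule ℝ L) (H : A) : LieSubalgebra ℝ L :=
  LieSubalgebra.lieSpan ℝ L {x | ∃ φ : Module.Dual ℝ A, φ ≠ 0 ∧ φ H = 0 ∧ Wv A φ x}

theorem Wv.mem_lsub {φ : Module.Dual ℝ A} {x : L} (hx : Wv A φ x) (h0 : φ ≠ 0) (hH : φ H = 0) : x ∈ lsub A H :=
  LieSubalgebra.subset_lieSpan ⟨φ, h0, hH, hx⟩

theorem theta_lsub (hA : MaxFlat θ A) {x : L} (hx : x ∈ lsub A H) : θ x ∈ lsub A H := by
  refine LieSubalgebra.lieSpan_induction (R := ℝ) (L := L) (p := fun x _ => θ x ∈ lsub A H) ?_ ?_ ?_ ?_ ?_ hx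
  · rintro x ⟨φ, h0, hH, hx⟩
    exact Wv.mem_lsub (hx.theta hA) (neg_ne_zero.2 h0) (by rw [LinearMap.neg_apply, hH, neg_zero])
  · rw [map_zero]
    exact (lsub A H).zero_mem
  · intro x y _ _ hx hy
    rw [map_add]
    exact (lsub A H).add_mem hx hy
  · intro c x _ hx
    rw [map_smul]
    exact (lsub A H).smul_mem c hx
  · intro x y _ _ hx hy
    rw [LieEquiv.map_lie]
    exact (lsub A H).lie_mem hx hy

theorem comm_lsub {x : L} (hx : x ∈ lsub A H) : ⁅(H : L), x⁆ = 0 := by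
  refine LieSubalgebra.lieSpan_induction (R := ℝ) (L := L) (p := fun x _ => ⁅(H : L), x⁆ = 0) ?_ ?_ ?_ ?_ ?_ hx
  · rintro x ⟨φ, h0, hH, hx⟩
    rw [hx H, hH, zero_smul]
  · exact lie_zero _
  · intro x y _ _ hx hy
    rw [lie_add, hx, hy, add_zero]
  · intro c x _ hx
    rw [lie_smul, hx, smul_zero]
  · intro x y _ _ hx hy
    rw [leibniz_lie, hx, hy, zero_lie, lie_zero, add_zero]

/-- The centraliser of `H` is spanned by weight vectors. -/
theorem cent_span (h : CartanBasis θ b) (hA : MaxFlat θ A) {y : L} (hy : ⁅(H : L), y⁆ = 0) :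
    y ∈ Submodule.span ℝ {x : L | ∃ φ : Module.Dual ℝ A, φ H = 0 ∧ Wv A φ x} := by
  have key : ∀ y : L, ∃ z ∈ Submodule.span ℝ {x : L | ∃ φ : Module.Dual ℝ A, φ H = 0 ∧ Wv A φ x},
      ∃ w ∈ Submodule.span ℝ {x : L | ∃ φ : Module.Dual ℝ A, φ H ≠ 0 ∧ Wv A φ x}, y = z + w := by
    intro y
    have hy : y ∈ Submodule.span ℝ {x : L | ∃ φ : Module.Dual ℝ A, Wv A φ x} := by
      rw [span_weights h hA]
      trivial
    induction hy using Submodule.span_induction with
    | mem x hx =>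
      obtain ⟨φ, hφ⟩ := hx
      by_cases h0 : φ H = 0
      · exact ⟨x, Submodule.subset_span ⟨φ, h0, hφ⟩, 0, Submodule.zero_mem _, (add_zero x).symm⟩
      · exact ⟨0, Submodule.zero_mem _, x, Submodule.subset_span ⟨φ, h0, hφ⟩, (zero_add x).symm⟩
    | zero => exact ⟨0, Submodule.zero_mem _, 0, Submodule.zero_mem _, (add_zero 0).symm⟩
    | add x y _ _ hx hy =>
      obtain ⟨z, hz, w, hw, rfl⟩ := hx
      obtain ⟨z', hz', w', hw', rfl⟩ := hy
      exact ⟨z + z', Submodule.add_mem _ hz hz', w + w', Submodule.add_mem _ hw hw', by abel⟩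
    | smul c x _ hx =>
      obtain ⟨z, hz, w, hw, rfl⟩ := hx
      exact ⟨c • z, Submodule.smul_mem _ c hz, c • w, Submodule.smul_mem _ c hw, smul_add c z w⟩
  -- the elements of the first kind commute with `H`
  have h1 : ∀ z ∈ Submodule.span ℝ {x : L | ∃ φ : Module.Dual ℝ A, φ H = 0 ∧ Wv A φ x}, ⁅(H : L), z⁆ = 0 := by
    intro z hz
    induction hz using Submodule.span_induction with
    | mem x hx =>
      obtain ⟨φ, h0, hφ⟩ := hx
      rw [hφ H, h0, zero_smul]
    | zero => exact lie_zero _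
    | add x y _ _ hx hy => rw [lie_add, hx, hy, add_zero]
    | smul c x _ hx => rw [lie_smul, hx, smul_zero]
  obtain ⟨z, hz, w, hw, rfl⟩ := key y
  have hw0 : ⁅(H : L), w⁆ = 0 := by rw [lie_add, h1 z hz, zero_add] at hy; exact hy
  suffices hw1 : w = 0 by
    rw [hw1, add_zero]
    exact hz
  -- `w` is orthogonal to everything
  have hH : θ (H : L) = -(H : L) := hA.neg _ H.2
  have h2 : ∀ φ : Module.Dual ℝ A, φ H ≠ 0 → ∀ x, Wv A φ x → ∀ v : L, ⁅(H : L), v⁆ = 0 → killingForm ℝ L x v = 0 := by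
    intro φ h0 x hx v hv
    have e1 : killingForm ℝ L ⁅(H : L), x⁆ v = -killingForm ℝ L x ⁅(H : L), v⁆ := LieModule.traceForm_apply_lie_apply' ℝ L L H x v
    rw [hx H, hv, map_zero, neg_zero, map_smul, LinearMap.smul_apply, smul_eq_mul] at e1
    exact (mul_eq_zero.1 e1).resolve_left h0
  have h3 : ∀ v : L, ⁅(H : L), v⁆ = 0 → ∀ w ∈ Submodule.span ℝ {x : L | ∃ φ : Module.Dual ℝ A, φ H ≠ 0 ∧ Wv A φ x},
      killingForm ℝ L w v = 0 := by
    intro v hv w hw
    induction hw using Submodule.span_induction with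
    | mem x hx =>
      obtain ⟨φ, h0, hφ⟩ := hx
      exact h2 φ h0 x hφ v hv
    | zero => rw [map_zero, LinearMap.zero_apply]
    | add x y _ _ hx hy => rw [map_add, LinearMap.add_apply, hx, hy, add_zero]
    | smul c x _ hx => rw [map_smul, LinearMap.smul_apply, hx, smul_zero]
  have h4 : ⁅(H : L), θ w⁆ = 0 := by
    have e := congrArg θ hw0
    rw [LieEquiv.map_lie, hH, map_zero, neg_lie, neg_eq_zero] at e
    exact e
  exact eq_zero_of_form h (h3 _ h4 w hw)

/-- `lsub A H` is an ideal of the centraliser of `H`. -/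
theorem cent_lsub (h : CartanBasis θ b) (hA : MaxFlat θ A) {y : L} (hy : ⁅(H : L), y⁆ = 0) {x : L} (hx : x ∈ lsub A H) :
    ⁅y, x⁆ ∈ lsub A H := by
  have h1 := cent_span h hA hy
  clear hy
  induction h1 using Submodule.span_induction with
  | mem y hy =>
    obtain ⟨φ, h0, hφ⟩ := hy
    by_cases hφ0 : φ = 0
    · -- weight zero
      subst hφ0
      refine LieSubalgebra.lieSpan_induction (R := ℝ) (L := L) (p := fun x _ => ⁅y, x⁆ ∈ lsub A H) ?_ ?_ ?_ ?_ ?_ hx
      · rintro x ⟨ψ, h0, hH, hx⟩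
        have h2 := hφ.lie hx
        rw [zero_add] at h2
        exact Wv.mem_lsub h2 h0 hH
      · rw [lie_zero]
        exact (lsub A H).zero_mem
      · intro x z _ _ hx hz
        rw [lie_add]
        exact (lsub A H).add_mem hx hz
      · intro c x _ hx
        rw [lie_smul]
        exact (lsub A H).smul_mem c hx
      · intro x z hx0 hz0 hx hz
        rw [leibniz_lie]
        exact (lsub A H).add_mem ((lsub A H).lie_mem hx hz0) ((lsub A H).lie_mem hx0 hz)
    · exact (lsub A H).lie_mem (Wv.mem_lsub hφ hφ0 h0) hx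
  | zero =>
    rw [zero_lie]
    exact (lsub A H).zero_mem
  | add y z _ _ hy hz =>
    rw [add_lie]
    exact (lsub A H).add_mem hy hz
  | smul c y _ hy =>
    rw [smul_lie]
    exact (lsub A H).smul_mem c hy

/-- The vectors of `lsub A H` are sums of brackets. -/
theorem perf_lsub (h : CartanBasis θ b) (hA : MaxFlat θ A) {x : L} (hx : x ∈ lsub A H) :
    x ∈ Submodule.span ℝ {z : L | ∃ u ∈ lsub A H, ∃ v ∈ lsub A H, z = ⁅u, v⁆} := by
  obtain ⟨τ, hτ⟩ := exists_tau h hA
  refine LieSubalgebra.lieSpan_induction (R := ℝ) (L := L)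
    (p := fun x _ => x ∈ Submodule.span ℝ {z : L | ∃ u ∈ lsub A H, ∃ v ∈ lsub A H, z = ⁅u, v⁆}) ?_ ?_ ?_ ?_ ?_ hx
  · rintro x ⟨φ, h0, hH, hx⟩
    by_cases hx0 : x = 0
    · rw [hx0]
      exact Submodule.zero_mem _
    have hm := Wv.mem_lsub hx h0 hH
    have h1 := lie_theta_self hτ h hA hx
    have h2 : ⁅⁅x, θ x⁆, x⁆ = (killingForm ℝ L x (θ x) * φ (τ φ)) • x := by
      rw [h1, smul_lie, hx (τ φ), smul_smul]
    have h3 : killingForm ℝ L x (θ x) * φ (τ φ) ≠ 0 := by
      have := pos h hx0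
      exact mul_ne_zero (by linarith) (tau_pos hτ h hA h0).ne'
    have h4 : x = (killingForm ℝ L x (θ x) * φ (τ φ))⁻¹ • ⁅⁅x, θ x⁆, x⁆ := by rw [h2, smul_smul, inv_mul_cancel₀ h3, one_smul]
    rw [h4]
    exact Submodule.smul_mem _ _ (Submodule.subset_span ⟨_, (lsub A H).lie_mem hm (theta_lsub hA hm), x, hm, rfl⟩)
  · exact Submodule.zero_mem _
  · intro x y _ _ hx hy
    exact Submodule.add_mem _ hx hy
  · intro c x _ hx
    exact Submodule.smul_mem _ c hx
  · intro x y hx hy _ _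
    exact Submodule.subset_span ⟨x, hx, y, hy, rfl⟩

/-- The centre of `lsub A H` is zero. -/
theorem center_lsub (h : CartanBasis θ b) (hA : MaxFlat θ A) {z : L} (hz : z ∈ lsub A H) (h0 : ∀ y ∈ lsub A H, ⁅z, y⁆ = 0) :
    z = 0 := by
  have key : ∀ w ∈ Submodule.span ℝ {z : L | ∃ u ∈ lsub A H, ∃ v ∈ lsub A H, z = ⁅u, v⁆}, killingForm ℝ L z w = 0 := by
    intro w h1
    induction h1 using Submodule.span_induction with
    | mem y hy =>
      obtain ⟨u, hu, v, hv, rfl⟩ := hy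
      rw [← kf_inv, h0 u hu, map_zero, LinearMap.zero_apply]
    | zero => exact map_zero _
    | add x y _ _ hx hy => rw [map_add, hx, hy, add_zero]
    | smul c x _ hx => rw [map_smul, hx, smul_zero]
  exact eq_zero_of_form h (key _ (perf_lsub h hA (theta_lsub hA hz)))

/-- The part of the centraliser of `H` which is orthogonal to `lsub A H` commutes with the flat. -/
theorem orth_comm (h : CartanBasis θ b) (hA : MaxFlat θ A) {y : L} (hy : ⁅(H : L), y⁆ = 0)
    (ho : ∀ x ∈ lsub A H, killingForm ℝ L y x = 0) (a : A) : ⁅(a : L), y⁆ = 0 := by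
  apply eq_zero_of_form h
  -- `[a, y]` is in `lsub A H`
  have h1 : ∀ (a : A) (y : L), ⁅(H : L), y⁆ = 0 → ⁅(a : L), y⁆ ∈ lsub A H := by
    intro a y hy
    have h2 := cent_span h hA hy
    clear hy
    induction h2 using Submodule.span_induction with
    | mem y hy =>
      obtain ⟨φ, h0, hφ⟩ := hy
      rw [hφ a]
      by_cases hφ0 : φ = 0
      · rw [hφ0, LinearMap.zero_apply, zero_smul]
        exact (lsub A H).zero_mem
      · exact (lsub A H).smul_mem _ (Wv.mem_lsub hφ hφ0 h0)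
    | zero =>
      rw [lie_zero]
      exact (lsub A H).zero_mem
    | add y z _ _ hy hz =>
      rw [lie_add]
      exact (lsub A H).add_mem hy hz
    | smul c y _ hy =>
      rw [lie_smul]
      exact (lsub A H).smul_mem c hy
  have h2 : θ ⁅(a : L), y⁆ ∈ lsub A H := theta_lsub hA (h1 a y hy)
  have h3 : ⁅(a : L), θ ⁅(a : L), y⁆⁆ ∈ lsub A H := h1 a _ (comm_lsub h2)
  have e1 : killingForm ℝ L ⁅(a : L), y⁆ (θ ⁅(a : L), y⁆) = -killingForm ℝ L y ⁅(a : L), θ ⁅(a : L), y⁆⁆ :=
    LieModule.traceForm_apply_lie_apply' ℝ L L _ _ _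
  rw [e1, ho _ h3, neg_zero]

end Pool.Agent.Helper87.FQ
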