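import Pool.Agent.Helper87.FQ.Bd3
import Pool.Agent.Helper87.FQ.Ld
import Pool.Agent.Helper66.BD.Aut
import Pool.Agent.Helper84.GD.Defs

/-!
# Project FQ (MP_0f6f3f_an), layer GD: Borel density for `autC b`

`bd_orb`, `bd_all`: `L` simple with `θ ≠ 1`, `ρ` a continuous representation of `autC b` which maps symmetric elements to symmetric matrices, `Γ` a lattice: a subspace with finite orbit under `ρ(Γ)` (invariant under
a subgroup of finite index of `Γ`) is invariant under `autC b`. `SI_of`: the condition `SI` of the group data.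
-/

set_option autoImplicit false
set_option linter.unusedSectionVars false

open Filter Topology Matrix Module

namespace Pool.Agent.Helper87.FQ

open Pool.Agent.Helper96.SA Pool.Agent.Helper96.TO Pool.Agent.Helper35.TZ Pool.Agent.Helper69.SLN Pool.Agent.Helper2.BC

variable {L : Type} [LieRing L] [LieAlgebra ℝ L] {N : ℕ} {θ : L ≃ₗ⁅ℝ⁆ L} {b : Module.Basis (Fin N) ℝ L}

/-- the ideal `p + [p, p]` -/
private theorem ideal_top87 [LieAlgebra.IsSimple ℝ L] (hθ : ∀ x, θ (θ x) = x)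
    (hp : ∃ x : L, x ≠ 0 ∧ θ x = -x) (M : Submodule ℝ L) (h1 : ∀ x, θ x = -x → x ∈ M)
    (h2 : ∀ x y, θ x = -x → θ y = -y → ⁅x, y⁆ ∈ M) : M = ⊤ := by
  let P : Submodule ℝ L :=
    { carrier := {x | θ x = -x}
      add_mem' := fun {x y} hx hy => by
        change θ (x + y) = -(x + y)
        have hx' : θ x = -x := hx
        have hy' : θ y = -y := hy
        rw [map_add, hx', hy', neg_add]
      zero_mem' := by
        change θ 0 = -0
        rw [map_zero, neg_zero]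
      smul_mem' := fun c x hx => by
        change θ (c • x) = -(c • x)
        have hx' : θ x = -x := hx
        rw [map_smul, hx', smul_neg] }
  let Q : Submodule ℝ L := Submodule.span ℝ {z | ∃ x ∈ P, ∃ y ∈ P, z = ⁅x, y⁆}
  have hc1 : ∀ w : L, ∀ m ∈ P, ⁅w, m⁆ ∈ P ⊔ Q := by
    intro w m hm
    have hm' : θ m = -m := hm
    set u : L := (1 / 2 : ℝ) • (w + θ w) with hu
    set v : L := (1 / 2 : ℝ) • (w - θ w) with hv
    have hw : w = u + v := by
      rw [hu, hv, ← smul_add, add_add_sub_cancel, ← two_smul ℝ w, smul_smul]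
      norm_num
    have hu' : θ u = u := by
      rw [hu, map_smul, map_add, hθ, add_comm]
    have hv' : v ∈ P := by
      change θ v = -v
      rw [hv, map_smul, map_sub, hθ, ← smul_neg, neg_sub]
    rw [hw, add_lie]
    refine Submodule.add_mem_sup ?_ (Submodule.subset_span ⟨v, hv', m, hm, rfl⟩)
    change θ ⁅u, m⁆ = -⁅u, m⁆
    rw [LieEquiv.map_lie, hu', hm', lie_neg]
  have hc2 : ∀ w : L, ∀ m ∈ Q, ⁅w, m⁆ ∈ P ⊔ Q := by
    intro w m hm
    induction hm using Submodule.span_induction with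
    | mem z hz =>
      obtain ⟨x, hx, y, hy, rfl⟩ := hz
      rw [leibniz_lie w x y, ← lie_skew x ⁅w, y⁆]
      exact Submodule.add_mem _ (hc1 _ _ hy) (Submodule.neg_mem _ (hc1 _ _ hx))
    | zero => rw [lie_zero]; exact Submodule.zero_mem _
    | add x y _ _ hx hy => rw [lie_add]; exact Submodule.add_mem _ hx hy
    | smul c x _ hx => rw [lie_smul]; exact Submodule.smul_mem _ _ hx
  let I : LieIdeal ℝ L :=
    { (P ⊔ Q) with
      lie_mem := fun {w m} hm => by
        obtain ⟨p, hp, q, hq, rfl⟩ := Submodule.mem_sup.1 hm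
        rw [lie_add]
        exact Submodule.add_mem _ (hc1 w p hp) (hc2 w q hq) }
  have hmem : ∀ x : L, x ∈ I ↔ x ∈ P ⊔ Q := fun x => Iff.rfl
  have hI : I = ⊤ := by
    rcases LieAlgebra.IsSimple.eq_bot_or_eq_top (R := ℝ) I with h | h
    · exfalso
      obtain ⟨x, hx0, hx⟩ := hp
      have h3 : x ∈ I := (hmem x).2 (Submodule.mem_sup_left hx)
      rw [h, LieSubmodule.mem_bot] at h3
      exact hx0 h3
    · exact h
  have hle : P ⊔ Q ≤ M := by
    refine sup_le (fun x hx => h1 x hx) (Submodule.span_le.2 ?_)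
    rintro z ⟨x, hx, y, hy, rfl⟩
    exact h2 x y hx hy
  rw [eq_top_iff]
  intro x _
  refine hle ((hmem x).1 ?_)
  rw [hI]
  trivial

/-- Closed subgroups of `autC b` which contain `exp(ad x)` for `θ x = -x`. -/
theorem eq_autC [LieAlgebra.IsSimple ℝ L] (h : CartanBasis θ b) (hp : ∃ x : L, x ≠ 0 ∧ θ x = -x) {S : Subgroup (GL (Fin N) ℝ)}
    (hS : IsClosed (S : Set (GL (Fin N) ℝ))) (h1 : ∀ x : L, θ x = -x → ex (TT_to b x) ∈ S) : autC b ≤ S := by
  obtain ⟨V, hV⟩ := lie_submodule hS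
  have hVm : ∀ X : Mat N, X ∈ V ↔ X ∈ lie S := fun X => by rw [← hV]; rfl
  have hpl : ∀ x, θ x = -x → TT_to b x ∈ lie S := by
    intro x hx
    rw [mem_lie]
    intro t
    rw [← map_smul]
    exact h1 _ (by rw [map_smul, hx, smul_neg])
  have htop : V.comap (TT_to b) = ⊤ := by
    refine ideal_top87 h.invol hp _ (fun x hx => ?_) (fun x y hx hy => ?_)
    · exact (hVm _).2 (hpl x hx)
    · refine (hVm _).2 ?_
      rw [TT_lie_to]
      exact lie_bracket hS (hpl x hx) (hpl y hy)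
  have hall : ∀ x : L, ex (TT_to b x) ∈ S := by
    intro x
    have h2 : x ∈ V.comap (TT_to b) := by
      rw [htop]
      trivial
    have h3 := mem_lie.1 ((hVm _).1 h2) 1
    rwa [one_smul] at h3
  intro g hg
  refine (Subgroup.closure_le S).2 ?_ (component_le h hg)
  rintro _ ⟨x, rfl⟩
  exact hall x

section rep
variable {n : Type*} [Fintype n] [DecidableEq n]

theorem ex_half {x : L} : (⟨ex (TT_to b x), ex_mem_autC b x⟩ : autC b) =
    ⟨ex (TT_to b ((1 / 2 : ℝ) • x)), ex_mem_autC b _⟩ * ⟨ex (TT_to b ((1 / 2 : ℝ) • x)), ex_mem_autC b _⟩ := by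
  apply Subtype.ext
  rw [Subgroup.coe_mul]
  show ex (TT_to b x) = ex (TT_to b ((1 / 2 : ℝ) • x)) * ex (TT_to b ((1 / 2 : ℝ) • x))
  rw [← ex_add rfl, ← map_add, ← add_smul]
  norm_num

theorem inv_all [LieAlgebra.IsSimple ℝ L] (h : CartanBasis θ b) (hp : ∃ x : L, x ≠ 0 ∧ θ x = -x)
    (ρ : autC b →* Matrix n n ℝ) (hρ : Continuous ρ) (W : Submodule ℝ (n → ℝ))
    (h1 : ∀ x : L, θ x = -x → W.map (ρ ⟨ex (TT_to b x), ex_mem_autC b x⟩).mulVecLin = W) (g : autC b) :
    W.map (ρ g).mulVecLin = W := by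
  let S : Subgroup (autC b) :=
    { carrier := {g | W.map (ρ g).mulVecLin = W}
      mul_mem' := fun {x y} hx hy => by
        have hx' : W.map (ρ x).mulVecLin = W := hx
        have hy' : W.map (ρ y).mulVecLin = W := hy
        show W.map (ρ (x * y)).mulVecLin = W
        rw [← map_map_rho, hy', hx']
      one_mem' := map_one_rho ρ W
      inv_mem' := fun {x} hx => by
        have hx' : W.map (ρ x).mulVecLin = W := hx
        show W.map (ρ x⁻¹).mulVecLin = W
        conv_lhs => rw [← hx']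
        rw [map_map_rho, inv_mul_cancel, map_one_rho] }
  have hSm : ∀ g, g ∈ S ↔ ∀ w ∈ W, ρ g *ᵥ w ∈ W := by
    intro g
    constructor
    · intro hg w hw
      have hg' : W.map (ρ g).mulVecLin = W := hg
      rw [← hg']
      exact ⟨w, hw, rfl⟩
    · intro hg
      show W.map (ρ g).mulVecLin = W
      apply map_eq_of_le
      rintro _ ⟨w, hw, rfl⟩
      exact hg w hw
  have hSc : IsClosed (S : Set (autC b)) := by
    have e : (S : Set (autC b)) = ⋂ w ∈ W, (fun g => ρ g *ᵥ w) ⁻¹' (W : Set (n → ℝ)) := by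
      ext g
      simp only [Set.mem_iInter, Set.mem_preimage, SetLike.mem_coe]
      exact hSm g
    rw [e]
    refine isClosed_biInter fun w _ => ?_
    exact W.closed_of_finiteDimensional.preimage (hρ.matrix_mulVec continuous_const)
  have hc : IsClosed ((autC b : Subgroup (GL (Fin N) ℝ)) : Set (GL (Fin N) ℝ)) := (Pool.Agent.Helper66.BD.isAdj_component b).closed
  have hS' : IsClosed ((S.map (autC b).subtype : Subgroup (GL (Fin N) ℝ)) : Set (GL (Fin N) ℝ)) := by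
    have h2 := hc.isClosedEmbedding_subtypeVal.isClosedMap _ hSc
    exact h2
  have h3 := eq_autC h hp hS' (fun x hx => ⟨⟨ex (TT_to b x), ex_mem_autC b x⟩, h1 x hx, rfl⟩)
  obtain ⟨g', hg', e⟩ := h3 g.2
  have e' : g' = g := Subtype.ext e
  rw [← e']
  exact hg'

/-- **Borel density**, finite orbits. -/
theorem bd_orb [LieAlgebra.IsSimple ℝ L] (h : CartanBasis θ b) (hp : ∃ x : L, x ≠ 0 ∧ θ x = -x) {Γ : Subgroup (autC b)}
    (hΓ : Pool.Agent.Helper96.FR.Lattice Γ) (ρ : autC b →* Matrix n n ℝ) (hρ : Continuous ρ)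
    (hsym : ∀ g : autC b, ((g : GL (Fin N) ℝ) : Mat N)ᵀ = ((g : GL (Fin N) ℝ) : Mat N) → (ρ g)ᵀ = ρ g) (W : Submodule ℝ (n → ℝ))
    (horb : (Set.range fun γ : Γ => W.map (ρ γ).mulVecLin).Finite) (g : autC b) : W.map (ρ g).mulVecLin = W := by
  refine inv_all h hp ρ hρ W (fun x hx => ?_) g
  rw [ex_half]
  refine bd_step hΓ ρ hρ W horb (hsym _ ?_)
  have h2 := Pool.Agent.Helper66.BD.ad_symm h (x := (1 / 2 : ℝ) • x) (by rw [map_smul, hx, smul_neg])
  show ((ex (TT_to b ((1 / 2 : ℝ) • x)) : GL (Fin N) ℝ) : Mat N)ᵀ = ((ex (TT_to b ((1 / 2 : ℝ) • x)) : GL (Fin N) ℝ) : Mat N)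
  rw [ex_coe, ← Matrix.exp_transpose]
  exact congrArg NormedSpace.exp h2

/-- **Borel density**, subgroups of finite index. -/
theorem bd_all [LieAlgebra.IsSimple ℝ L] (h : CartanBasis θ b) (hp : ∃ x : L, x ≠ 0 ∧ θ x = -x) {Γ Γ' : Subgroup (autC b)}
    (hΓ : Pool.Agent.Helper96.FR.Lattice Γ) (hfi : (Γ'.subgroupOf Γ).FiniteIndex) (ρ : autC b →* Matrix n n ℝ) (hρ : Continuous ρ)
    (hsym : ∀ g : autC b, ((g : GL (Fin N) ℝ) : Mat N)ᵀ = ((g : GL (Fin N) ℝ) : Mat N) → (ρ g)ᵀ = ρ g) (W : Submodule ℝ (n → ℝ))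
    (hW : ∀ γ ∈ Γ', ∀ w ∈ W, ρ γ *ᵥ w ∈ W) (g : autC b) : W.map (ρ g).mulVecLin = W :=
  bd_orb h hp hΓ ρ hρ hsym W (finite_orb hfi ρ W hW) g

end rep

/-- The condition `SI`. -/
theorem SI_of [LieAlgebra.IsSimple ℝ L] (h : CartanBasis θ b) (hp : ∃ x : L, x ≠ 0 ∧ θ x = -x) {Γ : Subgroup (autC b)}
    (hΓ : Pool.Agent.Helper96.FR.Lattice Γ) {ι : Type} [Fintype ι] [DecidableEq ι] (D : Pool.Agent.Helper84.GDL.GD (autC b) ι)
    (hsym : ∀ (l : ι) (g : autC b), ((g : GL (Fin N) ℝ) : Mat N)ᵀ = ((g : GL (Fin N) ℝ) : Mat N) → (D.rho l g)ᵀ = D.rho l g)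
    (hirr : ∀ (l : ι) (W : Submodule ℝ (Fin (D.d l + 1) → ℝ)), (∀ g : autC b, ∀ w ∈ W, D.rho l g *ᵥ w ∈ W) → W = ⊥ ∨ W = ⊤) :
    Pool.Agent.Helper84.GDL.SI D Γ := by
  intro l Γ' hle hfi W hW
  refine hirr l W fun g w hw => ?_
  have h1 := bd_all h hp hΓ hfi (D.rho l) (D.rho_cont l) (hsym l) W hW g
  rw [← h1]
  exact ⟨w, hw, rfl⟩

end Pool.Agent.Helper87.FQ
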