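import Pool.Agent.Helper96.FR.Lat3

/-!
# Project FQ (MP_0f6f3f_an), layer GD: Borel density, the measure part

`lyap`: a bounded continuous function on `G / Γ`, `Γ` a lattice, which does not decrease under the translation by `a` is invariant under this translation.
-/

set_option autoImplicit false
set_option linter.unusedSectionVars false

open Filter Topology MeasureTheory
open scoped ENNReal

namespace Pool.Agent.Helper87.FQ


variable {G : Type*} [Group G] [TopologicalSpace G] [IsTopologicalGroup G] [SecondCountableTopology G]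

/-- Nonempty open sets have positive measure. -/
theorem open_pos {Γ : Subgroup G} {ν : @Measure (G ⧸ Γ) (borel (G ⧸ Γ))} (h0 : ν Set.univ ≠ 0)
    (hinv : ∀ (g : G) (s : Set (G ⧸ Γ)), MeasurableSet[borel (G ⧸ Γ)] s → ν ((fun x => g • x) ⁻¹' s) = ν s) {U : Set (G ⧸ Γ)}
    (hU : IsOpen U) (hne : U.Nonempty) : 0 < ν U := by
  let mQ : MeasurableSpace (G ⧸ Γ) := borel (G ⧸ Γ)
  have hB : BorelSpace (G ⧸ Γ) := ⟨rfl⟩
  rw [pos_iff_ne_zero]
  intro hU0
  apply h0
  obtain ⟨x0, hx0⟩ := hne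
  have hc : ∀ g : G, Continuous fun x : G ⧸ Γ => g • x := fun g => continuous_const_smul g
  -- the translates cover
  have h1 : ∀ x : G ⧸ Γ, ∃ g : G, x ∈ (fun x => g • x) ⁻¹' U := by
    intro x
    obtain ⟨g, hg⟩ := MulAction.exists_smul_eq G x x0
    exact ⟨g, by rw [Set.mem_preimage, hg]; exact hx0⟩
  choose s hs using h1
  obtain ⟨t, ht, htU⟩ := TopologicalSpace.countable_cover_nhds (f := fun x : G ⧸ Γ => (fun y => s x • y) ⁻¹' U)
    (fun x => (hU.preimage (hc (s x))).mem_nhds (hs x))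
  have h2 : ν (⋃ x ∈ t, (fun y => s x • y) ⁻¹' U) = 0 := by
    rw [measure_biUnion_null_iff ht]
    intro x _
    rw [hinv (s x) U hU.measurableSet, hU0]
  rw [htU] at h2
  exact h2

/-- **Monotone functions are invariant.** -/
theorem lyap {Γ : Subgroup G} (hΓ : Pool.Agent.Helper96.FR.Lattice Γ) {φ : G → ℝ} (hc : Continuous φ) {C : ℝ} (hb : ∀ g, |φ g| ≤ C)
    (hi : ∀ g, ∀ γ ∈ Γ, φ (g * γ) = φ g) {a : G} (hm : ∀ g, φ g ≤ φ (a * g)) (g : G) : φ (a * g) = φ g := by
  obtain ⟨-, ν, h0, htop, hinv⟩ := hΓ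
  let mQ : MeasurableSpace (G ⧸ Γ) := borel (G ⧸ Γ)
  have hB : BorelSpace (G ⧸ Γ) := ⟨rfl⟩
  have hfin : IsFiniteMeasure ν := ⟨lt_top_iff_ne_top.2 htop⟩
  let f : G ⧸ Γ → ℝ := Quotient.lift φ (fun x y hxy => by
    have h1 : x⁻¹ * y ∈ Γ := QuotientGroup.leftRel_apply.1 hxy
    have h2 := hi x _ h1
    rw [mul_inv_cancel_left] at h2
    exact h2.symm)
  have hf : ∀ g : G, f (g : G ⧸ Γ) = φ g := fun g => rfl
  have hfc : Continuous f := hc.quotient_lift _
  have hfb : ∀ x, |f x| ≤ C := by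
    intro x
    obtain ⟨g, rfl⟩ := QuotientGroup.mk_surjective x
    exact hb g
  have hac : Continuous fun x : G ⧸ Γ => a • x := continuous_const_smul a
  have hmp : MeasurePreserving (fun x : G ⧸ Γ => a • x) ν ν := by
    refine ⟨hac.measurable, ?_⟩
    ext s hs
    rw [Measure.map_apply hac.measurable hs, hinv a s hs]
  have hint : ∀ {u : G ⧸ Γ → ℝ}, Continuous u → (∀ x, |u x| ≤ C) → Integrable u ν := by
    intro u hu hub
    refine (integrable_const C).mono' hu.measurable.aestronglyMeasurable (ae_of_all _ fun x => ?_)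
    rw [Real.norm_eq_abs]
    exact hub x
  have h1 : ∫ x, f (a • x) ∂ν = ∫ x, f x ∂ν := by
    have h2 := integral_map hmp.measurable.aemeasurable (f := f) (by rw [hmp.map_eq]; exact hfc.measurable.aestronglyMeasurable)
    rw [hmp.map_eq] at h2
    exact h2.symm
  have hi1 : Integrable (fun x => f (a • x)) ν := hint (hfc.comp hac) fun x => hfb _
  have hi2 : Integrable f ν := hint hfc hfb
  have h2 : ∫ x, (f (a • x) - f x) ∂ν = 0 := by rw [integral_sub hi1 hi2, h1, sub_self]
  have hD : ∀ x, 0 ≤ f (a • x) - f x := by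
    intro x
    obtain ⟨g, rfl⟩ := QuotientGroup.mk_surjective x
    exact sub_nonneg.2 (hm g)
  have h3 : (fun x => f (a • x) - f x) =ᵐ[ν] 0 := (integral_eq_zero_iff_of_nonneg hD (hi1.sub hi2)).1 h2
  have hDc : Continuous fun x => f (a • x) - f x := (hfc.comp hac).sub hfc
  by_contra hne
  have hU : IsOpen {x : G ⧸ Γ | f (a • x) - f x ≠ 0} := isOpen_ne_fun hDc continuous_const
  have h4 := open_pos h0 hinv hU ⟨(g : G ⧸ Γ), fun h5 => hne (sub_eq_zero.1 h5)⟩
  exact h4.ne' h3

end Pool.Agent.Helper87.FQ
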