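import Pool.Agent.Helper87.FQ.Bd1

/-!
# Project FQ (MP_0f6f3f_an), layer GD: Borel density, the linear algebra part

`rr a P = det ((aP)ᵀ(aP)) / det (PᵀP)`; for symmetric `a` it increases from `P` to `aP`, with equality only when the range of `P` is invariant
under `a * a`. `rs a F`: the same for subspaces.
-/

set_option autoImplicit false
set_option linter.unusedSectionVars false

open Filter Topology Matrix

namespace Pool.Agent.Helper87.FQ

section det
variable {k k' m : Type*} [Fintype k] [DecidableEq k] [Fintype k'] [DecidableEq k'] [Fintype m] [DecidableEq m]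

theorem one_add_sum_le' {s : Finset k} {f : k → ℝ} (hf : ∀ i, 0 ≤ f i) : 1 + ∑ i ∈ s, f i ≤ ∏ i ∈ s, (1 + f i) := by
  classical
  induction s using Finset.induction_on with
  | empty => simp
  | insert i s hi ih =>
    rw [Finset.sum_insert hi, Finset.prod_insert hi]
    have h0 : 0 ≤ ∑ i ∈ s, f i := Finset.sum_nonneg fun i _ => hf i
    nlinarith [hf i, mul_nonneg (hf i) h0, mul_le_mul_of_nonneg_left ih (show 0 ≤ 1 + f i by linarith [hf i])]

theorem one_add_trace_le (Y : Matrix m k ℝ) : 1 + (Yᵀ * Y).trace ≤ (1 + Yᵀ * Y).det := by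
  have hH : (Yᵀ * Y).PosSemidef := posSemidef_conjTranspose_mul_self Y
  have h1 := hH.1.spectral_theorem
  rw [Unitary.conjStarAlgAut_apply] at h1
  have hU : (hH.1.eigenvectorUnitary : Matrix k k ℝ) * star (hH.1.eigenvectorUnitary : Matrix k k ℝ) = 1 :=
    Unitary.coe_mul_star_self hH.1.eigenvectorUnitary
  have h2 : 1 + Yᵀ * Y = (hH.1.eigenvectorUnitary : Matrix k k ℝ) * (1 + diagonal (RCLike.ofReal ∘ hH.1.eigenvalues)) *
      star (hH.1.eigenvectorUnitary : Matrix k k ℝ) := by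
    rw [mul_add, mul_one, add_mul, hU, ← h1]
  have h3 : (1 + diagonal (RCLike.ofReal ∘ hH.1.eigenvalues) : Matrix k k ℝ) = diagonal fun i => 1 + hH.1.eigenvalues i := by
    rw [← diagonal_one, diagonal_add]
    rfl
  have h4 : (Yᵀ * Y).trace = ∑ i, hH.1.eigenvalues i := by
    rw [hH.1.trace_eq_sum_eigenvalues]
    rfl
  rw [h2, det_mul_right_comm, hU, one_mul, h3, det_diagonal, h4]
  exact one_add_sum_le' fun i => hH.eigenvalues_nonneg i

theorem trace_nonneg' (Y : Matrix m k ℝ) : 0 ≤ (Yᵀ * Y).trace := by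
  rw [Matrix.trace]
  refine Finset.sum_nonneg fun i _ => ?_
  rw [Matrix.diag_apply, Matrix.mul_apply]
  exact Finset.sum_nonneg fun j _ => mul_self_nonneg _

theorem det_add_le {A : Matrix k k ℝ} (hA : A.PosDef) (Z : Matrix m k ℝ) :
    A.det ≤ (A + Zᵀ * Z).det ∧ (A.det = (A + Zᵀ * Z).det → Z = 0) := by
  obtain ⟨C, hC⟩ : ∃ C : Matrix k k ℝ, A = Cᵀ * C := by
    open scoped MatrixOrder Matrix.Norms.L2Operator in
    obtain ⟨B, hB⟩ := CStarAlgebra.nonneg_iff_eq_star_mul_self.mp hA.posSemidef.nonneg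
    exact ⟨B, hB⟩
  have hpos : 0 < A.det := hA.det_pos
  have hdet : A.det = C.det * C.det := by rw [hC, det_mul, det_transpose]
  have hCu : IsUnit C.det := by
    rw [isUnit_iff_ne_zero]
    intro h0
    rw [hdet, h0, zero_mul] at hpos
    exact lt_irrefl _ hpos
  obtain ⟨Y, hZ⟩ : ∃ Y : Matrix m k ℝ, Z = Y * C := ⟨Z * C⁻¹, by rw [Matrix.mul_assoc, nonsing_inv_mul _ hCu, Matrix.mul_one]⟩
  have h2 : A + Zᵀ * Z = Cᵀ * (1 + Yᵀ * Y) * C := by
    rw [hC, hZ, transpose_mul, Matrix.mul_add, Matrix.mul_one, Matrix.add_mul]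
    simp only [Matrix.mul_assoc]
  have h3 : (A + Zᵀ * Z).det = A.det * (1 + Yᵀ * Y).det := by
    rw [h2, det_mul, det_mul, det_transpose, hdet]
    ring
  have h4 := one_add_trace_le Y
  have h5 := trace_nonneg' Y
  rw [h3]
  refine ⟨by nlinarith, fun h6 => ?_⟩
  have h7 : (1 + Yᵀ * Y).det = 1 := by
    have h8 : A.det * ((1 + Yᵀ * Y).det - 1) = 0 := by linarith
    rcases mul_eq_zero.1 h8 with h9 | h9
    · exact absurd h9 hpos.ne'
    · linarith
  have h8 : (Yᵀ * Y).trace = 0 := by linarith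
  have h9 : Y = 0 := trace_conjTranspose_mul_self_eq_zero_iff.1 h8
  rw [hZ, h9, Matrix.zero_mul]

theorem posDef_of_inj {P : Matrix m k ℝ} (hP : Function.Injective P.mulVec) : (Pᵀ * P).PosDef := PosDef.conjTranspose_mul_self P hP

/-- The expansion of the volume. -/
noncomputable def rr (a : Matrix m m ℝ) (P : Matrix m k ℝ) : ℝ := ((a * P)ᵀ * (a * P)).det / (Pᵀ * P).det

theorem mulVec_inj_mul {a : Matrix m m ℝ} (hi : Function.Injective a.mulVec) {P : Matrix m k ℝ} (hP : Function.Injective P.mulVec) :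
    Function.Injective (a * P).mulVec := by
  intro x y h
  rw [← mulVec_mulVec, ← mulVec_mulVec] at h
  exact hP (hi h)

theorem rr_mono {a : Matrix m m ℝ} (ha : aᵀ = a) (hi : Function.Injective a.mulVec) {P : Matrix m k ℝ} (hP : Function.Injective P.mulVec) :
    rr a P ≤ rr a (a * P) ∧ (rr a P = rr a (a * P) → ∃ X : Matrix k k ℝ, a * (a * P) = P * X) := by
  have hG := posDef_of_inj hP
  have hT := posDef_of_inj (mulVec_inj_mul hi hP)
  have hR := posDef_of_inj (mulVec_inj_mul hi (mulVec_inj_mul hi hP))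
  unfold rr
  obtain ⟨G, hGd⟩ : ∃ G, G = Pᵀ * P := ⟨_, rfl⟩
  obtain ⟨T, hTd⟩ : ∃ T, T = (a * P)ᵀ * (a * P) := ⟨_, rfl⟩
  obtain ⟨R, hRd⟩ : ∃ R, R = (a * (a * P))ᵀ * (a * (a * P)) := ⟨_, rfl⟩
  rw [← hGd] at hG ⊢
  rw [← hTd] at hT ⊢
  rw [← hRd] at hR ⊢
  have hGp := hG.det_pos
  have hTp := hT.det_pos
  have hGs : Gᵀ = G := by rw [hGd, transpose_mul, transpose_transpose]
  have hTs : Tᵀ = T := by rw [hTd, transpose_mul, transpose_transpose]
  have hGu : IsUnit G.det := isUnit_iff_ne_zero.2 hGp.ne'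
  obtain ⟨Q, hQ⟩ : ∃ Q, Q = P * (G⁻¹ * T) := ⟨_, rfl⟩
  have hQt : Qᵀ = T * G⁻¹ * Pᵀ := by
    rw [hQ, transpose_mul, transpose_mul, hTs, transpose_nonsing_inv, hGs]
  have hQQ : Qᵀ * Q = T * G⁻¹ * T := by
    rw [hQt, hQ]
    have h1 : T * G⁻¹ * Pᵀ * (P * (G⁻¹ * T)) = T * (G⁻¹ * G) * (G⁻¹ * T) := by
      rw [hGd]
      simp only [Matrix.mul_assoc]
    rw [h1, nonsing_inv_mul _ hGu, Matrix.mul_one, Matrix.mul_assoc]
  have h1 : (a * (a * P))ᵀ * Q = T * G⁻¹ * T := by
    have h2 : (a * (a * P))ᵀ * P = T := by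
      rw [transpose_mul, hTd, ha]
      simp only [Matrix.mul_assoc]
    rw [hQ, ← Matrix.mul_assoc, h2, Matrix.mul_assoc]
  have h2 : Qᵀ * (a * (a * P)) = T * G⁻¹ * T := by
    have h3 := congrArg Matrix.transpose h1
    rw [transpose_mul, transpose_transpose] at h3
    rw [h3, transpose_mul, transpose_mul, hTs, transpose_nonsing_inv, hGs, Matrix.mul_assoc]
  have hRZ : R = Qᵀ * Q + (a * (a * P) - Q)ᵀ * (a * (a * P) - Q) := by
    rw [transpose_sub, Matrix.sub_mul, Matrix.mul_sub, Matrix.mul_sub, h1, h2, hQQ, ← hRd]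
    abel
  have hdet : (Qᵀ * Q).det = T.det * T.det / G.det := by
    rw [hQQ, det_mul, det_mul, det_nonsing_inv, Ring.inverse_eq_inv']
    ring
  have hQi : Function.Injective Q.mulVec := by
    have h3 : IsUnit (G⁻¹ * T).det := by
      rw [det_mul, det_nonsing_inv, Ring.inverse_eq_inv', isUnit_iff_ne_zero]
      exact mul_ne_zero (inv_ne_zero hGp.ne') hTp.ne'
    intro x y h
    rw [hQ, ← mulVec_mulVec x P (G⁻¹ * T), ← mulVec_mulVec y P (G⁻¹ * T)] at h
    exact mulVec_injective_of_isUnit ((isUnit_iff_isUnit_det _).2 h3) (hP h)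
  have h3 := det_add_le (posDef_of_inj hQi) (a * (a * P) - Q)
  rw [← hRZ, hdet] at h3
  refine ⟨?_, fun h4 => ?_⟩
  · rw [div_le_div_iff₀ hGp hTp]
    have h4 := (div_le_iff₀ hGp).1 h3.1
    linarith
  · have h5 := h3.2 (by
      rw [div_eq_div_iff hGp.ne' hTp.ne'] at h4
      rw [div_eq_iff hGp.ne']
      linarith)
    exact ⟨G⁻¹ * T, by rw [← hQ]; exact sub_eq_zero.1 h5⟩

theorem rr_nonneg (a : Matrix m m ℝ) (P : Matrix m k ℝ) : 0 ≤ rr a P :=
  div_nonneg (posSemidef_conjTranspose_mul_self (a * P)).det_nonneg (posSemidef_conjTranspose_mul_self P).det_nonneg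

theorem mul_dot_le (a : Matrix m m ℝ) (v : m → ℝ) : (a *ᵥ v) ⬝ᵥ (a *ᵥ v) ≤ (∑ i, ∑ j, a i j ^ 2) * (v ⬝ᵥ v) := by
  rw [dotProduct, Finset.sum_mul]
  refine Finset.sum_le_sum fun i _ => ?_
  rw [mulVec, dotProduct, ← pow_two]
  refine (Finset.sum_mul_sq_le_sq_mul_sq _ _ _).trans (le_of_eq ?_)
  rw [dotProduct]
  simp only [pow_two]

theorem rr_le {a : Matrix m m ℝ} (hi : Function.Injective a.mulVec) {P : Matrix m k ℝ} (hP : Function.Injective P.mulVec) :
    rr a P ≤ (∑ i, ∑ j, a i j ^ 2) ^ Fintype.card k := by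
  set c := ∑ i, ∑ j, a i j ^ 2
  have hE : (c • (1 : Matrix m m ℝ) - aᵀ * a).PosSemidef := by
    refine .of_dotProduct_mulVec_nonneg ?_ fun x => ?_
    · rw [Matrix.IsHermitian, conjTranspose_eq_transpose_of_trivial, transpose_sub, transpose_smul, transpose_one, transpose_mul,
        transpose_transpose]
    · have h1 := mul_dot_le a x
      have h2 : star x ⬝ᵥ (c • (1 : Matrix m m ℝ) - aᵀ * a) *ᵥ x = c * (x ⬝ᵥ x) - (a *ᵥ x) ⬝ᵥ (a *ᵥ x) := by
        have h3 : star x = x := star_trivial x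
        rw [h3, sub_mulVec, dotProduct_sub, smul_mulVec, one_mulVec, dotProduct_smul, smul_eq_mul, ← mulVec_mulVec,
          dotProduct_mulVec, vecMul_transpose]
      rw [h2]
      linarith
  obtain ⟨E, hEE⟩ : ∃ E : Matrix m m ℝ, c • (1 : Matrix m m ℝ) - aᵀ * a = Eᵀ * E := by
    open scoped MatrixOrder Matrix.Norms.L2Operator in
    obtain ⟨B, hB⟩ := CStarAlgebra.nonneg_iff_eq_star_mul_self.mp hE.nonneg
    exact ⟨B, hB⟩
  have hG := posDef_of_inj hP
  have hT := posDef_of_inj (mulVec_inj_mul hi hP)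
  have h1 : c • (Pᵀ * P) = (a * P)ᵀ * (a * P) + (E * P)ᵀ * (E * P) := by
    have h2 : (a * P)ᵀ * (a * P) + (E * P)ᵀ * (E * P) = Pᵀ * (aᵀ * a + Eᵀ * E) * P := by
      rw [transpose_mul, transpose_mul, Matrix.mul_add, Matrix.add_mul]
      simp only [Matrix.mul_assoc]
    rw [h2, ← hEE]
    simp
  have h2 := (det_add_le hT (E * P)).1
  rw [← h1, det_smul] at h2
  rw [rr, div_le_iff₀ hG.det_pos]
  exact h2

/-- `rr` depends only on the range. -/
theorem rr_congr {a : Matrix m m ℝ} {P : Matrix m k ℝ} {P' : Matrix m k' ℝ} (hP : Function.Injective P.mulVec)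
    (hP' : Function.Injective P'.mulVec) {X : Matrix k' k ℝ} {Y : Matrix k k' ℝ} (hX : P = P' * X) (hY : P' = P * Y) :
    rr a P = rr a P' := by
  have hmat : ∀ {k₁ : Type _} [Fintype k₁] [DecidableEq k₁] {R S : Matrix k k₁ ℝ}, P * R = P * S → R = S := by
    intro k₁ _ _ R S h
    apply Matrix.ext_of_mulVec_single
    intro i
    apply hP
    rw [mulVec_mulVec, mulVec_mulVec, h]
  have hmat' : ∀ {k₁ : Type _} [Fintype k₁] [DecidableEq k₁] {R S : Matrix k' k₁ ℝ}, P' * R = P' * S → R = S := by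
    intro k₁ _ _ R S h
    apply Matrix.ext_of_mulVec_single
    intro i
    apply hP'
    rw [mulVec_mulVec, mulVec_mulVec, h]
  have hYX : Y * X = 1 := by
    apply hmat
    rw [← Matrix.mul_assoc, ← hY, ← hX, Matrix.mul_one]
  have hXY : X * Y = 1 := by
    apply hmat'
    rw [← Matrix.mul_assoc, ← hX, ← hY, Matrix.mul_one]
  have key : ∀ M : Matrix k' k' ℝ, (Xᵀ * (M * X)).det = M.det * (X * Xᵀ).det := by
    intro M
    rw [det_comm' (M := Xᵀ) (N := M * X) (M' := Yᵀ) (by rw [← transpose_mul, hYX, transpose_one])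
      (by rw [← transpose_mul, hXY, transpose_one]), Matrix.mul_assoc, det_mul]
  have h1 : ((a * P)ᵀ * (a * P)).det = ((a * P')ᵀ * (a * P')).det * (X * Xᵀ).det := by
    rw [← key]
    congr 1
    rw [hX, ← Matrix.mul_assoc a, transpose_mul]
    simp only [Matrix.mul_assoc]
  have h2 : (Pᵀ * P).det = (P'ᵀ * P').det * (X * Xᵀ).det := by
    rw [← key]
    congr 1
    rw [hX, transpose_mul]
    simp only [Matrix.mul_assoc]
  have h3 : (X * Xᵀ).det ≠ 0 := by
    intro h4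
    rw [h4, mul_zero] at h2
    exact (posDef_of_inj hP).det_pos.ne' h2
  rw [rr, rr, h1, h2, mul_div_mul_right _ _ h3]

end det

end Pool.Agent.Helper87.FQ
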