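import Pool.Agent.Helper87.FQ.Bd2

/-!
# Project FQ (MP_0f6f3f_an), layer GD: Borel density, the step

`bd_step`: a subspace with finite orbit under `ρ(Γ)`, `Γ` a lattice, is invariant under `ρ(a a)` whenever `ρ(a)` is symmetric.
-/

set_option autoImplicit false
set_option linter.unusedSectionVars false

open Filter Topology Matrix Module

namespace Pool.Agent.Helper87.FQ

section lin
variable {n k k' : Type*} [Fintype n] [DecidableEq n] [Fintype k] [DecidableEq k] [Fintype k'] [DecidableEq k']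

/-- A basis matrix of a subspace. -/
noncomputable def bsM (F : Submodule ℝ (n → ℝ)) : Matrix n (Fin (finrank ℝ F)) ℝ := Matrix.of fun i j => ((finBasis ℝ F j : F) : n → ℝ) i

theorem bsM_mulVec (F : Submodule ℝ (n → ℝ)) (c : Fin (finrank ℝ F) → ℝ) :
    bsM F *ᵥ c = ((finBasis ℝ F).equivFun.symm c : F) := by
  ext i
  rw [Basis.equivFun_symm_apply, mulVec, dotProduct, Submodule.coe_sum, Finset.sum_apply]
  refine Finset.sum_congr rfl fun j _ => ?_
  rw [bsM, of_apply, Submodule.coe_smul, Pi.smul_apply, smul_eq_mul, mul_comm]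

theorem bsM_inj (F : Submodule ℝ (n → ℝ)) : Function.Injective (bsM F).mulVec := by
  intro x y h
  rw [bsM_mulVec, bsM_mulVec] at h
  exact (finBasis ℝ F).equivFun.symm.injective (Subtype.ext h)

theorem bsM_range (F : Submodule ℝ (n → ℝ)) : LinearMap.range (bsM F).mulVecLin = F := by
  ext v
  constructor
  · rintro ⟨c, rfl⟩
    rw [mulVecLin_apply, bsM_mulVec]
    exact Subtype.mem _
  · intro hv
    refine ⟨(finBasis ℝ F).equivFun ⟨v, hv⟩, ?_⟩
    rw [mulVecLin_apply, bsM_mulVec, LinearEquiv.symm_apply_apply]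

theorem exists_X {P : Matrix n k ℝ} {P' : Matrix n k' ℝ} (h : LinearMap.range P.mulVecLin ≤ LinearMap.range P'.mulVecLin) :
    ∃ X : Matrix k' k ℝ, P = P' * X := by
  have h1 : ∀ j : k, ∃ x : k' → ℝ, P' *ᵥ x = P *ᵥ Pi.single j 1 := fun j => h ⟨Pi.single j 1, rfl⟩
  choose x hx using h1
  refine ⟨Matrix.of fun i j => x j i, ?_⟩
  ext i j
  have h2 := congrFun (hx j) i
  rw [mulVec_single_one] at h2
  rw [Matrix.mul_apply]
  exact h2.symm

/-- The expansion of the volume on a subspace. -/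
noncomputable def rsv (a : Matrix n n ℝ) (F : Submodule ℝ (n → ℝ)) : ℝ := rr a (bsM F)

theorem rsv_eq (a : Matrix n n ℝ) {P : Matrix n k ℝ} (hP : Function.Injective P.mulVec) {F : Submodule ℝ (n → ℝ)}
    (h : LinearMap.range P.mulVecLin = F) : rsv a F = rr a P := by
  obtain ⟨X, hX⟩ := exists_X (P := P) (P' := bsM F) (by rw [h, bsM_range])
  obtain ⟨Y, hY⟩ := exists_X (P := bsM F) (P' := P) (by rw [h, bsM_range])
  exact rr_congr (bsM_inj F) hP hY hX

theorem range_mul (M : Matrix n n ℝ) (P : Matrix n k ℝ) :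
    LinearMap.range (M * P).mulVecLin = (LinearMap.range P.mulVecLin).map M.mulVecLin := by
  rw [Matrix.mulVecLin_mul, LinearMap.range_comp]

theorem rsv_map {a M : Matrix n n ℝ} (hM : Function.Injective M.mulVec) (F : Submodule ℝ (n → ℝ)) :
    rsv a (F.map M.mulVecLin) = rr a (M * bsM F) :=
  rsv_eq a (mulVec_inj_mul hM (bsM_inj F)) (by rw [range_mul, bsM_range])

theorem rsv_mono {a : Matrix n n ℝ} (ha : aᵀ = a) (hi : Function.Injective a.mulVec) (F : Submodule ℝ (n → ℝ)) :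
    rsv a F ≤ rsv a (F.map a.mulVecLin) ∧ (rsv a F = rsv a (F.map a.mulVecLin) → F.map (a * a).mulVecLin ≤ F) := by
  rw [rsv_map hi]
  refine ⟨(rr_mono ha hi (bsM_inj F)).1, fun h => ?_⟩
  obtain ⟨X, hX⟩ := (rr_mono ha hi (bsM_inj F)).2 h
  have h1 : F.map (a * a).mulVecLin = LinearMap.range (bsM F * X).mulVecLin := by
    rw [← hX, ← Matrix.mul_assoc, range_mul, bsM_range]
  rw [h1, Matrix.mulVecLin_mul]
  refine (LinearMap.range_comp_le_range _ _).trans ?_
  rw [bsM_range]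

theorem rsv_bdd {a : Matrix n n ℝ} (hi : Function.Injective a.mulVec) (F : Submodule ℝ (n → ℝ)) :
    ∃ C, ∀ M : Matrix n n ℝ, Function.Injective M.mulVec → |rsv a (F.map M.mulVecLin)| ≤ C := by
  refine ⟨(∑ i, ∑ j, a i j ^ 2) ^ Fintype.card (Fin (finrank ℝ F)), fun M hM => ?_⟩
  rw [rsv_map hM, abs_of_nonneg (rr_nonneg _ _)]
  exact rr_le hi (mulVec_inj_mul hM (bsM_inj F))

end lin

section step
variable {G : Type*} [Group G] [TopologicalSpace G] [IsTopologicalGroup G] [SecondCountableTopology G]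
  {n : Type*} [Fintype n] [DecidableEq n]

theorem rho_inj (ρ : G →* Matrix n n ℝ) (g : G) : Function.Injective (ρ g).mulVec := by
  intro x y h
  have h1 := congrArg (fun v => ρ g⁻¹ *ᵥ v) h
  simpa only [mulVec_mulVec, ← map_mul, inv_mul_cancel, map_one, one_mulVec] using h1

theorem map_map_rho (ρ : G →* Matrix n n ℝ) (F : Submodule ℝ (n → ℝ)) (g h : G) :
    (F.map (ρ h).mulVecLin).map (ρ g).mulVecLin = F.map (ρ (g * h)).mulVecLin := by
  rw [map_mul, Matrix.mulVecLin_mul, Submodule.map_comp]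

theorem map_one_rho (ρ : G →* Matrix n n ℝ) (F : Submodule ℝ (n → ℝ)) : F.map (ρ 1).mulVecLin = F := by
  rw [map_one, Matrix.mulVecLin_one, Submodule.map_id]

theorem map_eq_of_le (ρ : G →* Matrix n n ℝ) {F : Submodule ℝ (n → ℝ)} {g : G} (h : F.map (ρ g).mulVecLin ≤ F) :
    F.map (ρ g).mulVecLin = F := by
  refine Submodule.eq_of_le_of_finrank_eq h ?_
  exact (LinearEquiv.finrank_eq (Submodule.equivMapOfInjective (ρ g).mulVecLin (rho_inj ρ g) F)).symm

theorem bd_step {Γ : Subgroup G} (hΓ : Pool.Agent.Helper96.FR.Lattice Γ) (ρ : G →* Matrix n n ℝ) (hρ : Continuous ρ)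
    (W : Submodule ℝ (n → ℝ)) (horb : (Set.range fun γ : Γ => W.map (ρ γ).mulVecLin).Finite) {a : G} (ha : (ρ a)ᵀ = ρ a) :
    W.map (ρ (a * a)).mulVecLin = W := by
  classical
  set O := horb.toFinset with hO
  have hmem : ∀ F, F ∈ O ↔ ∃ γ : Γ, W.map (ρ γ).mulVecLin = F := by
    intro F
    rw [hO, Set.Finite.mem_toFinset, Set.mem_range]
  have hWO : W ∈ O := (hmem W).2 ⟨1, map_one_rho ρ W⟩
  have hst : ∀ γ ∈ Γ, ∀ F ∈ O, F.map (ρ γ).mulVecLin ∈ O := by
    intro γ hγ F hF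
    obtain ⟨δ, rfl⟩ := (hmem F).1 hF
    refine (hmem _).2 ⟨⟨γ, hγ⟩ * δ, ?_⟩
    rw [map_map_rho]
    rfl
  set φ : G → ℝ := fun g => ∑ F ∈ O, rsv (ρ a) (F.map (ρ g).mulVecLin) with hφ
  have hcont : Continuous φ := by
    refine continuous_finset_sum _ fun F _ => ?_
    have h1 : (fun g => rsv (ρ a) (F.map (ρ g).mulVecLin)) = fun g => rr (ρ a) (ρ g * bsM F) :=
      funext fun g => rsv_map (rho_inj ρ g) F
    rw [h1]
    have h2 : Continuous fun g => ρ g * bsM F := hρ.matrix_mul continuous_const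
    have h3 : Continuous fun g => ρ a * (ρ g * bsM F) := continuous_const.matrix_mul h2
    unfold rr
    refine Continuous.div ((h3.matrix_transpose.matrix_mul h3).matrix_det) ((h2.matrix_transpose.matrix_mul h2).matrix_det)
      fun g => ?_
    exact (posDef_of_inj (mulVec_inj_mul (rho_inj ρ g) (bsM_inj F))).det_pos.ne'
  have hb : ∃ C, ∀ g, |φ g| ≤ C := by
    choose C hC using fun F => rsv_bdd (rho_inj ρ a) F
    exact ⟨∑ F ∈ O, C F, fun g => (Finset.abs_sum_le_sum_abs _ _).trans (Finset.sum_le_sum fun F _ => hC F _ (rho_inj ρ g))⟩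
  obtain ⟨C, hC⟩ := hb
  have hi : ∀ g, ∀ γ ∈ Γ, φ (g * γ) = φ g := by
    intro g γ hγ
    refine Finset.sum_nbij' (fun F => F.map (ρ γ).mulVecLin) (fun F => F.map (ρ γ⁻¹).mulVecLin) (hst γ hγ) (hst _ (Γ.inv_mem hγ))
      ?_ ?_ ?_
    · intro F _
      rw [map_map_rho, inv_mul_cancel, map_one_rho]
    · intro F _
      rw [map_map_rho, mul_inv_cancel, map_one_rho]
    · intro F _
      rw [map_map_rho]
  have hterm : ∀ (g : G) (F : Submodule ℝ (n → ℝ)), rsv (ρ a) (F.map (ρ g).mulVecLin) ≤ rsv (ρ a) (F.map (ρ (a * g)).mulVecLin) := by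
    intro g F
    rw [← map_map_rho]
    exact (rsv_mono ha (rho_inj ρ a) _).1
  have h1 := lyap hΓ hcont hC hi (a := a) (fun g => Finset.sum_le_sum fun F _ => hterm g F) 1
  have h2 := (Finset.sum_eq_sum_iff_of_le (s := O) (f := fun F => rsv (ρ a) (F.map (ρ 1).mulVecLin))
    (g := fun F => rsv (ρ a) (F.map (ρ (a * 1)).mulVecLin)) fun F _ => hterm 1 F).1 h1.symm W hWO
  rw [map_one_rho, mul_one] at h2
  apply map_eq_of_le
  rw [map_mul]
  exact (rsv_mono ha (rho_inj ρ a) W).2 h2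

/-- Finite index subgroups have finite orbits. -/
theorem finite_orb {Γ Γ' : Subgroup G} (hfi : (Γ'.subgroupOf Γ).FiniteIndex) (ρ : G →* Matrix n n ℝ) (W : Submodule ℝ (n → ℝ))
    (hW : ∀ γ ∈ Γ', ∀ w ∈ W, ρ γ *ᵥ w ∈ W) : (Set.range fun γ : Γ => W.map (ρ γ).mulVecLin).Finite := by
  have h0 : ∀ γ ∈ Γ', W.map (ρ γ).mulVecLin = W := by
    intro γ hγ
    apply map_eq_of_le
    rintro _ ⟨w, hw, rfl⟩
    exact hW γ hγ w hw
  have hfin : Finite (Γ ⧸ Γ'.subgroupOf Γ) := Subgroup.finite_quotient_of_finiteIndex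
  refine (Set.finite_range fun q : Γ ⧸ Γ'.subgroupOf Γ => W.map (ρ (q.out : Γ)).mulVecLin).subset ?_
  rintro _ ⟨γ, rfl⟩
  refine ⟨(γ : Γ ⧸ Γ'.subgroupOf Γ), ?_⟩
  obtain ⟨h, hh⟩ := QuotientGroup.mk_out_eq_mul (Γ'.subgroupOf Γ) γ
  have h1 : ((h : Γ) : G) ∈ Γ' := h.2
  show W.map (ρ (((γ : Γ ⧸ Γ'.subgroupOf Γ).out : Γ) : G)).mulVecLin = W.map (ρ (γ : G)).mulVecLin
  rw [hh, Subgroup.coe_mul, ← map_map_rho, h0 _ h1]

/-- Finite index subgroups. -/
theorem bd_fin {Γ Γ' : Subgroup G} (hΓ : Pool.Agent.Helper96.FR.Lattice Γ) (hfi : (Γ'.subgroupOf Γ).FiniteIndex)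
    (ρ : G →* Matrix n n ℝ) (hρ : Continuous ρ) (W : Submodule ℝ (n → ℝ)) (hW : ∀ γ ∈ Γ', ∀ w ∈ W, ρ γ *ᵥ w ∈ W) {a : G}
    (ha : (ρ a)ᵀ = ρ a) : W.map (ρ (a * a)).mulVecLin = W :=
  bd_step hΓ ρ hρ W (finite_orb hfi ρ W hW) ha

end step

end Pool.Agent.Helper87.FQ
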