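import Pool.Agent.Helper87.FQ.Lf
import Pool.Agent.Helper55.FQ.Defs
import Pool.Agent.Helper25.EN.Lsub

/-!
# Project FQ (MP_0f6f3f_an), layer EQ: Cartan decomposition of the Levi groups

`kak_Mh`: elements of the centraliser `Mh b (W u)` are `k1 * exp(ad H) * k2`, `k1`, `k2` orthogonal elements of the centraliser, `H = ∑ c i W i`, `c i ≥ 0` for `i ≠ u`, from the clause `lev` of the group data; the gaps of
`ea (t δ_u) g` for large `t` are `c + t δ_u`. `kak_SS`: the same for `SS`.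
-/

set_option autoImplicit false
set_option linter.unusedSectionVars false

open Filter Topology Matrix Module

namespace Pool.Agent.Helper87.FQ

open Pool.Agent.Helper96.SA Pool.Agent.Helper96.TO Pool.Agent.Helper35.TZ Pool.Agent.Helper69.SLN Pool.Agent.Helper2.BC
  Pool.Agent.Helper84.GDL Pool.Agent.Helper77.FQ Pool.Agent.Helper25.EN

section der
open scoped Matrix.Norms.Operator

/-- Commutation with a one-parameter group. -/
theorem comm_of_exp {n : ℕ} {k X : Mat n} (h : ∀ t : ℝ, k * NormedSpace.exp (t • X) = NormedSpace.exp (t • X) * k) : k * X = X * k := by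
  have h1 : HasDerivAt (fun t : ℝ => NormedSpace.exp (t • X)) (X * NormedSpace.exp ((0 : ℝ) • X)) 0 := hasDerivAt_exp_smul_const' X 0
  have h2 := h1.const_mul k
  have h3 := h1.mul_const k
  have e : (fun t : ℝ => k * NormedSpace.exp (t • X)) = fun t : ℝ => NormedSpace.exp (t • X) * k := funext h
  rw [e] at h2
  have h4 := h2.unique h3
  rwa [zero_smul, NormedSpace.exp_zero, Matrix.mul_one] at h4

end der

variable {L : Type} [LieRing L] [LieAlgebra ℝ L] {N : ℕ} {r : ℕ} {θ : L ≃ₗ⁅ℝ⁆ L} {b : Module.Basis (Fin N) ℝ L} {A : Submodule ℝ L}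
  {τ : Module.Dual ℝ A ≃ₗ[ℝ] A} {al : Fin r → Module.Dual ℝ A} {W : Fin r → A} {D : GD (autC b) (Fin r)}

theorem eaA_single (W : Fin r → A) (u : Fin r) (t : ℝ) : eaA W (Pi.single u t) = t • W u := by
  rw [eaA, Finset.sum_eq_single u (fun i _ hi => by rw [Pi.single_eq_of_ne hi, zero_smul]) (fun hi => absurd (Finset.mem_univ u) hi),
    Pi.single_eq_same]

/-- The flat in direction `u`. -/
theorem ea_single_coe (G : Pool.Agent.Helper55.FQ.Gr θ b A τ al W D) (u : Fin r) (t : ℝ) :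
    ((D.ea (Pi.single u t) : autC b) : GL (Fin N) ℝ) = ex (t • TT_to b (W u : L)) := by
  rw [G.ea, eaG_coe, eaA_single, Submodule.coe_smul, map_smul]

/-- Elements of `autC b` commuting with `ea (t δ_u)` for all `t` fix `W u`. -/
theorem mem_Mh_of_comm (G : Pool.Agent.Helper55.FQ.Gr θ b A τ al W D) (u : Fin r) {k : autC b}
    (hk : ∀ t : ℝ, k * D.ea (Pi.single u t) = D.ea (Pi.single u t) * k) : (k : GL (Fin N) ℝ) ∈ Mh b (W u : L) := by
  rw [mem_Mh_iff G.s.h]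
  refine ⟨k.2, comm_of_exp fun t => ?_⟩
  have h1 := congrArg (fun g : autC b => ((g : GL (Fin N) ℝ) : Mat N)) (hk t)
  simp only [Subgroup.coe_mul, Units.val_mul, ea_single_coe G] at h1
  rwa [ex_coe] at h1

theorem comm_of_mem_Mh (G : Pool.Agent.Helper55.FQ.Gr θ b A τ al W D) (u : Fin r) {k : autC b}
    (hk : (k : GL (Fin N) ℝ) ∈ Mh b (W u : L)) (t : ℝ) : k * D.ea (Pi.single u t) = D.ea (Pi.single u t) * k := by
  rw [G.ea]
  exact eaG_single_comm (isAdj_autC b) W u ((mem_Mh_iff G.s.h).1 hk).2 t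

theorem single_of_off {u : Fin r} {c : Fin r → ℝ} (hc : ∀ i, i ∉ ({u} : Set (Fin r)) → c i = 0) : c = Pi.single u (c u) := by
  funext i
  by_cases hi : i = u
  · rw [hi, Pi.single_eq_same]
  · rw [Pi.single_eq_of_ne hi]
    exact hc i hi

theorem single_off {u i : Fin r} (hi : i ∉ ({u} : Set (Fin r))) (t : ℝ) : (Pi.single u t : Fin r → ℝ) i = 0 := by
  rw [Pi.single_eq_of_ne (show i ≠ u from hi)]

/-- **Cartan decomposition of the centraliser** of `W u`. -/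
theorem kak_Mh (G : Pool.Agent.Helper55.FQ.Gr θ b A τ al W D) (u : Fin r) (m : Mh b (W u : L)) :
    ∃ (c : Fin r → ℝ) (k1 k2 : Mh b (W u : L)), (∀ i, i ≠ u → 0 ≤ c i) ∧ ti (k1 : GL (Fin N) ℝ) = k1 ∧ ti (k2 : GL (Fin N) ℝ) = k2 ∧
      m = k1 * eh b G.s.hA (W u) (eaA W c) * k2 ∧
      ∀ t : ℝ, 0 ≤ c u + t → D.mu (D.ea (Pi.single u t) * ⟨(m : GL (Fin N) ℝ), m.2.1⟩) = c + Pi.single u t := by
  have hm := comm_of_mem_Mh G u (k := ⟨(m : GL (Fin N) ℝ), m.2.1⟩) m.2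
  obtain ⟨k1, hk1, k2, hk2, c, hc, e, h1⟩ := D.lev {u} ⟨(m : GL (Fin N) ℝ), m.2.1⟩ fun c hc => by
    rw [single_of_off hc]
    exact hm _
  have hk1' : (k1 : GL (Fin N) ℝ) ∈ Mh b (W u : L) := mem_Mh_of_comm G u fun t => (h1 (Pi.single u t) fun i hi => single_off hi t).1
  have hk2' : (k2 : GL (Fin N) ℝ) ∈ Mh b (W u : L) := mem_Mh_of_comm G u fun t => (h1 (Pi.single u t) fun i hi => single_off hi t).2
  refine ⟨c, ⟨k1, hk1'⟩, ⟨k2, hk2'⟩, fun i hi => hc i hi, ti_eq_self.2 ((G.K _).1 hk1), ti_eq_self.2 ((G.K _).1 hk2), ?_, ?_⟩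
  · have h2 := congrArg (fun g : autC b => (g : GL (Fin N) ℝ)) e
    refine Subtype.ext ?_
    simp only [Subgroup.coe_mul] at h2
    rw [Subgroup.coe_mul, Subgroup.coe_mul, h2, G.ea, eaG_coe]
    rfl
  · intro t ht
    have h3 := (h1 (Pi.single u t) fun i hi => single_off hi t).1
    have h2 : D.ea (Pi.single u t) * ⟨(m : GL (Fin N) ℝ), m.2.1⟩ = k1 * D.ea (c + Pi.single u t) * k2 := by
      rw [e, add_comm, D.ea_add, ← mul_assoc, ← mul_assoc, ← h3, mul_assoc k1]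
    rw [h2]
    refine D.mu_kak hk1 hk2 fun i => ?_
    by_cases hi : i = u
    · rw [hi, Pi.add_apply, Pi.single_eq_same]
      exact ht
    · rw [Pi.add_apply, Pi.single_eq_of_ne hi, add_zero]
      exact hc i hi

/-- **Cartan decomposition of `SS`.** -/
theorem kak_SS (G : Pool.Agent.Helper55.FQ.Gr θ b A τ al W D) (u : Fin r) (g : SS G.s.h G.s.hA (W u)) :
    ∃ (μ : A) (k1 k2 : GL (Fin (finrank ℝ (lsub A (W u)))) ℝ), (∀ k, k ≠ u → 0 ≤ al k μ) ∧
      (g : GL (Fin (finrank ℝ (lsub A (W u)))) ℝ) = k1 * res G.s.h G.s.hA (W u) (eh b G.s.hA (W u) μ) * k2 ∧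
      (k1 : Mat (finrank ℝ (lsub A (W u))))ᵀ * (k1 : Mat (finrank ℝ (lsub A (W u)))) = 1 ∧
      (k2 : Mat (finrank ℝ (lsub A (W u))))ᵀ * (k2 : Mat (finrank ℝ (lsub A (W u)))) = 1 := by
  obtain ⟨m, rfl⟩ := surjective_rsS G.s.h G.s.hA (W u) g
  obtain ⟨c, k1, k2, hc, hk1, hk2, e, -⟩ := kak_Mh G u m
  refine ⟨eaA W c, res G.s.h G.s.hA (W u) k1, res G.s.h G.s.hA (W u) k2, fun k hk => by rw [al_eaA G.hW]; exact hc k hk, ?_, ?_, ?_⟩
  · rw [rsS_coe, ← map_mul, ← map_mul, ← e]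
  · have h1 := rsS_mem_KS G.s.h G.s.hA (W u) hk1
    rw [mem_KS, rsS_coe] at h1
    exact ti_eq_self.1 h1
  · have h1 := rsS_mem_KS G.s.h G.s.hA (W u) hk2
    rw [mem_KS, rsS_coe] at h1
    exact ti_eq_self.1 h1

end Pool.Agent.Helper87.FQ
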