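import Pool.Agent.Helper87.FQ.La

/-!
# Project FQ (MP_0f6f3f_an), layer TZA: automorphisms and the Levi factor

`ac_lsub`: the automorphisms which fix `H` preserve `lsub A H`.
-/

set_option autoImplicit false
set_option linter.unusedSectionVars false

open Matrix Set

namespace Pool.Agent.Helper87.FQ

open Pool.Agent.Helper96.SA Pool.Agent.Helper96.TO Pool.Agent.Helper35.TZ Pool.Agent.Helper69.SLN Pool.Agent.Helper2.BC
open Pool.Agent.Helper77.TZ2 (kf_comm kf_inv kf_theta lie_theta_self)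

variable {L : Type} [LieRing L] [LieAlgebra ℝ L] {N : ℕ} {θ : L ≃ₗ⁅ℝ⁆ L} {b : Module.Basis (Fin N) ℝ L} {A : Submodule ℝ L} {H : A}

/-- The orthogonal decomposition. -/
theorem exists_orth (h : CartanBasis θ b) (hA : MaxFlat θ A) (x : L) : ∃ u ∈ lsub A H, ∀ v ∈ lsub A H, killingForm ℝ L (x - u) v = 0 := by
  have hF : Module.Finite ℝ L := Module.Finite.of_basis b
  obtain ⟨W, hW⟩ : ∃ W : Submodule ℝ L, W = (lsub A H).toSubmodule := ⟨_, rfl⟩
  have hm : ∀ x, x ∈ W ↔ x ∈ lsub A H := fun x => by rw [hW]; exact Iff.rfl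
  have h1 : LinearMap.BilinForm.IsRefl (killingForm ℝ L) := fun x y hxy => by rw [kf_comm]; exact hxy
  have h2 : ((killingForm ℝ L).restrict W).Nondegenerate := by
    have h3 : ∀ x : W, (∀ y : W, killingForm ℝ L (x : L) (y : L) = 0) → x = 0 := by
      intro x hx
      exact Subtype.ext (eq_zero_of_form h (hx ⟨θ (x : L), (hm _).2 (theta_lsub hA ((hm _).1 x.2))⟩))
    refine ⟨fun x hx => h3 x hx, fun x hx => h3 x fun y => ?_⟩
    rw [kf_comm]
    exact hx y
  have h3 := LinearMap.BilinForm.isCompl_orthogonal_of_restrict_nondegenerate h1 h2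
  have h4 : x ∈ W ⊔ (killingForm ℝ L).orthogonal W := by
    rw [h3.sup_eq_top]
    trivial
  obtain ⟨u, hu, c, hc, rfl⟩ := Submodule.mem_sup.1 h4
  refine ⟨u, (hm u).1 hu, fun v hv => ?_⟩
  rw [add_sub_cancel_left, kf_comm]
  exact hc v ((hm v).2 hv)

/-- An element of `lsub A H` which is orthogonal to `lsub A H` is zero. -/
theorem orth_self (h : CartanBasis θ b) (hA : MaxFlat θ A) {x : L} (hx : x ∈ lsub A H) (h0 : ∀ v ∈ lsub A H, killingForm ℝ L x v = 0) :
    x = 0 := eq_zero_of_form h (h0 _ (theta_lsub hA hx))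

/-- The orthogonal part of the centraliser of `H` commutes with `lsub A H`. -/
theorem orth_lie (h : CartanBasis θ b) (hA : MaxFlat θ A) {c : L} (hc : ⁅(H : L), c⁆ = 0)
    (ho : ∀ x ∈ lsub A H, killingForm ℝ L c x = 0) {v : L} (hv : v ∈ lsub A H) : ⁅c, v⁆ = 0 := by
  refine orth_self h hA (cent_lsub h hA hc hv) fun w hw => ?_
  rw [kf_inv]
  exact ho _ ((lsub A H).lie_mem hv hw)

/-- The elements `x` of the centraliser of `H` with `[y, x] = x` for an element `y` of the centraliser. -/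
theorem mem_lsub_of (h : CartanBasis θ b) (hA : MaxFlat θ A) {x y : L} (hx : ⁅(H : L), x⁆ = 0) (hy : ⁅(H : L), y⁆ = 0)
    (hyx : ⁅y, x⁆ = x) : x ∈ lsub A H := by
  obtain ⟨u, hu, hu'⟩ := exists_orth (H := H) h hA x
  obtain ⟨v, hv, hv'⟩ := exists_orth (H := H) h hA y
  obtain ⟨c, hc⟩ : ∃ c, c = x - u := ⟨_, rfl⟩
  obtain ⟨d, hd⟩ : ∃ d, d = y - v := ⟨_, rfl⟩
  rw [← hc] at hu'
  rw [← hd] at hv'
  have hxe : x = u + c := by rw [hc]; abel
  have hye : y = v + d := by rw [hd]; abel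
  have hcH : ⁅(H : L), c⁆ = 0 := by rw [hc, _root_.lie_sub, hx, comm_lsub hu, sub_zero]
  have hdH : ⁅(H : L), d⁆ = 0 := by rw [hd, _root_.lie_sub, hy, comm_lsub hv, sub_zero]
  -- `[d, c] = c`
  have e1 : ⁅v, u⁆ + ⁅d, c⁆ = u + c := by
    rw [hxe, hye, add_lie, lie_add, lie_add, orth_lie h hA hdH hv' hu] at hyx
    have e2 : ⁅v, c⁆ = 0 := by rw [← lie_skew, orth_lie h hA hcH hu' hv, neg_zero]
    rw [e2, add_zero, zero_add] at hyx
    exact hyx
  have e2 : ⁅d, c⁆ = c := by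
    have h1 : ⁅d, c⁆ - c ∈ lsub A H := by
      have : ⁅d, c⁆ - c = u - ⁅v, u⁆ := by
        rw [sub_eq_sub_iff_add_eq_add, add_comm, e1]
      rw [this]
      exact (lsub A H).sub_mem hu ((lsub A H).lie_mem hv hu)
    have h2 : ⁅d, c⁆ - c = 0 := orth_self h hA h1 fun w hw => by
      rw [map_sub, LinearMap.sub_apply, hu' w hw, sub_zero, kf_inv, orth_lie h hA hcH hu' hw, map_zero]
    exact sub_eq_zero.1 h2
  -- `d - θ d` is in the flat
  have hθo : ∀ {z : L}, (∀ x ∈ lsub A H, killingForm ℝ L z x = 0) → ∀ x ∈ lsub A H, killingForm ℝ L (θ z) x = 0 := by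
    intro z hz x hx
    have := hz _ (theta_lsub hA hx)
    rw [← kf_theta θ, h.invol] at this
    exact this
  have hθH : ∀ {z : L}, ⁅(H : L), z⁆ = 0 → ⁅(H : L), θ z⁆ = 0 := by
    intro z hz
    have e := congrArg θ hz
    rw [LieEquiv.map_lie, hA.neg _ H.2, map_zero, neg_lie, neg_eq_zero] at e
    exact e
  have hda : ⁅d - θ d, c⁆ = 0 := by
    have h1 : d - θ d ∈ A := by
      refine hA.max _ (by rw [map_sub, h.invol, neg_sub]) fun a ha => ?_
      have e3 := orth_comm h hA hdH hv' ⟨a, ha⟩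
      have e4 := orth_comm h hA (hθH hdH) (hθo hv') ⟨a, ha⟩
      change ⁅a, d⁆ = 0 at e3
      change ⁅a, θ d⁆ = 0 at e4
      rw [← lie_skew, _root_.lie_sub, e3, e4, sub_zero, neg_zero]
    exact orth_comm h hA hcH hu' ⟨_, h1⟩
  have e3 : ⁅θ d, c⁆ = c := by
    rw [sub_lie, e2] at hda
    exact (sub_eq_zero.1 hda).symm
  have e4 : ⁅d, θ c⁆ = θ c := by
    have := congrArg θ e3
    rw [LieEquiv.map_lie, h.invol] at this
    exact this
  have e5 : killingForm ℝ L ⁅d, c⁆ (θ c) = -killingForm ℝ L c ⁅d, θ c⁆ := LieModule.traceForm_apply_lie_apply' ℝ L L _ _ _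
  rw [e2, e4] at e5
  have e6 : c = 0 := eq_zero_of_form h (by linarith)
  rw [hxe, e6, add_zero]
  exact hu

/-- **The automorphisms which fix `H` preserve the Levi factor.** -/
theorem ac_lsub (h : CartanBasis θ b) (hA : MaxFlat θ A) {g : GL (Fin N) ℝ} (hg : g ∈ autG b) (hgH : ac b g (H : L) = H) {x : L}
    (hx : x ∈ lsub A H) : ac b g x ∈ lsub A H := by
  refine LieSubalgebra.lieSpan_induction (R := ℝ) (L := L) (p := fun x _ => ac b g x ∈ lsub A H) ?_ ?_ ?_ ?_ ?_ hx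
  · rintro x ⟨φ, h0, hH, hx⟩
    obtain ⟨a, ha⟩ : ∃ a : A, φ a ≠ 0 := by
      by_contra hcon
      push Not at hcon
      exact h0 (LinearMap.ext hcon)
    have hfix : ∀ {z : L}, ⁅(H : L), z⁆ = 0 → ⁅(H : L), ac b g z⁆ = 0 := by
      intro z hz
      have h1 := ac_lie hg (H : L) z
      rw [hz, map_zero, hgH] at h1
      exact h1.symm
    refine mem_lsub_of (y := ac b g ((φ a)⁻¹ • (a : L))) h hA (hfix ?_) (hfix ?_) ?_
    · rw [hx H, hH, zero_smul]
    · rw [lie_smul, hA.abel _ H.2 _ a.2, smul_zero]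
    · rw [← ac_lie hg, smul_lie, hx a, smul_smul, inv_mul_cancel₀ ha, one_smul]
  · rw [map_zero]
    exact (lsub A H).zero_mem
  · intro x y _ _ hx hy
    rw [map_add]
    exact (lsub A H).add_mem hx hy
  · intro c x _ hx
    rw [map_smul]
    exact (lsub A H).smul_mem c hx
  · intro x y _ _ hx hy
    rw [ac_lie hg]
    exact (lsub A H).lie_mem hx hy

end Pool.Agent.Helper87.FQ
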