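import Pool.Agent.Helper87.FQ.Lb

/-!
# Project FQ (MP_0f6f3f_an), layer TZA: the Cartan basis of a subalgebra

A subalgebra `S` of `L` which is stable under `θ` and has trivial centre has a Cartan basis (`exists_cb`) for the restriction `thS` of `θ`.
-/

set_option autoImplicit false
set_option linter.unusedSectionVars false

open Matrix Set

namespace Pool.Agent.Helper87.FQ

open Pool.Agent.Helper96.SA Pool.Agent.Helper96.TO Pool.Agent.Helper35.TZ Pool.Agent.Helper69.SLN Pool.Agent.Helper2.BC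
open Pool.Agent.Helper77.TZ2 (kf_comm kf_inv kf_theta)

/-- Orthonormal bases. -/
theorem exists_onb {V : Type} [AddCommGroup V] [Module ℝ V] [FiniteDimensional ℝ V] (B : LinearMap.BilinForm ℝ V)
    (hs : ∀ x y, B x y = B y x) (hp : ∀ x, x ≠ 0 → 0 < B x x) :
    ∃ v : Module.Basis (Fin (Module.finrank ℝ V)) ℝ V, ∀ i j, B (v i) (v j) = if i = j then 1 else 0 := by
  obtain ⟨v, hv⟩ := LinearMap.BilinForm.exists_orthogonal_basis (B := B) ⟨fun x y => hs x y⟩
  have h1 : ∀ i, 0 < B (v i) (v i) := fun i => hp _ (v.ne_zero i)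
  refine ⟨v.unitsSMul fun i => Units.mk0 (Real.sqrt (B (v i) (v i)))⁻¹ (inv_ne_zero (Real.sqrt_pos.2 (h1 i)).ne'), fun i j => ?_⟩
  rw [Module.Basis.unitsSMul_apply, Module.Basis.unitsSMul_apply]
  change B ((Real.sqrt (B (v i) (v i)))⁻¹ • v i) ((Real.sqrt (B (v j) (v j)))⁻¹ • v j) = _
  rw [map_smul, map_smul, LinearMap.smul_apply, smul_eq_mul, smul_eq_mul]
  split_ifs with hij
  · subst hij
    have h2 := Real.mul_self_sqrt (h1 i).le
    have h3 := (Real.sqrt_pos.2 (h1 i)).ne'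
    field_simp
    rw [sq]
    exact h2.symm
  · have h2 : B (v i) (v j) = 0 := hv hij
    rw [h2, mul_zero, mul_zero]

variable {L : Type} [LieRing L] [LieAlgebra ℝ L] {N : ℕ} {θ : L ≃ₗ⁅ℝ⁆ L} {b : Module.Basis (Fin N) ℝ L}

/-- The restriction of `θ`. -/
noncomputable def thS (S : LieSubalgebra ℝ L) (hi : ∀ x, θ (θ x) = x) (hθ : ∀ x ∈ S, θ x ∈ S) : S ≃ₗ⁅ℝ⁆ S where
  toFun x := ⟨θ x, hθ _ x.2⟩
  map_add' x y := Subtype.ext (map_add θ (x : L) (y : L))
  map_smul' c x := Subtype.ext (map_smul θ c (x : L))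
  map_lie' {x y} := Subtype.ext (LieEquiv.map_lie θ (x : L) (y : L))
  invFun x := ⟨θ x, hθ _ x.2⟩
  left_inv x := Subtype.ext (hi x)
  right_inv x := Subtype.ext (hi x)

theorem thS_coe (S : LieSubalgebra ℝ L) (hi : ∀ x, θ (θ x) = x) (hθ : ∀ x ∈ S, θ x ∈ S) (x : S) : ((thS S hi hθ x : S) : L) = θ x := rfl

/-- **The Cartan basis of a subalgebra.** -/
theorem exists_cb (h : CartanBasis θ b) (S : LieSubalgebra ℝ L) (hθ : ∀ x ∈ S, θ x ∈ S) (hc : ∀ z ∈ S, (∀ y ∈ S, ⁅z, y⁆ = 0) → z = 0) :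
    ∃ bS : Module.Basis (Fin (Module.finrank ℝ S)) ℝ S, CartanBasis (thS S h.invol hθ) bS := by
  have hF : Module.Finite ℝ L := Module.Finite.of_basis b
  have hFS : Module.Finite ℝ S := inferInstanceAs (Module.Finite ℝ S.toSubmodule)
  have hsym : ∀ x y : L, killingForm ℝ L x (θ y) = killingForm ℝ L y (θ x) := by
    intro x y
    rw [← kf_theta θ x, h.invol, kf_comm]
  let B : LinearMap.BilinForm ℝ S := -((killingForm ℝ L).compl₁₂ S.toSubmodule.subtype (θ.toLinearEquiv.toLinearMap ∘ₗ S.toSubmodule.subtype))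
  have hB : ∀ x y : S, B x y = -killingForm ℝ L (x : L) (θ (y : L)) := fun x y => rfl
  obtain ⟨c, hcB⟩ := exists_onb B (fun x y => by rw [hB, hB, hsym]) (fun x hx => by
    rw [hB]
    exact pos h fun h0 => hx (Subtype.ext h0))
  -- coordinates
  have hco : ∀ (z : S) i, c.repr z i = B z (c i) := by
    intro z i
    conv_rhs => rw [← c.sum_repr z]
    rw [map_sum, LinearMap.sum_apply, Finset.sum_eq_single i]
    · rw [map_smul, LinearMap.smul_apply, hcB, if_pos rfl, smul_eq_mul, mul_one]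
    · intro j _ hj
      rw [map_smul, LinearMap.smul_apply, hcB, if_neg hj, smul_zero]
    · intro hi
      exact absurd (Finset.mem_univ i) hi
  let M : S → Matrix (Fin (Module.finrank ℝ S)) (Fin (Module.finrank ℝ S)) ℝ := fun x => LinearMap.toMatrix c c (LieAlgebra.ad ℝ S x : S →ₗ[ℝ] S)
  have hM : ∀ (x : S) i j, M x i j = B ⁅x, c j⁆ (c i) := by
    intro x i j
    change LinearMap.toMatrix c c (LieAlgebra.ad ℝ S x : S →ₗ[ℝ] S) i j = _
    rw [LinearMap.toMatrix_apply, hco]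
    rfl
  have hMt : ∀ x : S, M (thS S h.invol hθ x) = -(M x)ᵀ := by
    intro x
    ext i j
    rw [Matrix.neg_apply, Matrix.transpose_apply, hM, hM, hB, hB]
    change -killingForm ℝ L ⁅θ (x : L), (c j : L)⁆ (θ (c i : L)) = - -killingForm ℝ L ⁅(x : L), (c i : L)⁆ (θ (c j : L))
    have e1 : killingForm ℝ L ⁅θ (x : L), (c j : L)⁆ (θ (c i : L)) = -killingForm ℝ L (c j : L) ⁅θ (x : L), θ (c i : L)⁆ :=
      LieModule.traceForm_apply_lie_apply' ℝ L L _ _ _
    rw [e1, ← LieEquiv.map_lie, hsym]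
  have hk : ∀ x y : S, killingForm ℝ S x y = (M x * M y).trace := by
    intro x y
    rw [LieModule.traceForm_apply_apply, LinearMap.trace_eq_matrix_trace ℝ c, LinearMap.toMatrix_comp c c c]
    rfl
  have hpos : ∀ x : S, x ≠ 0 → 0 < -killingForm ℝ S x (thS S h.invol hθ x) := by
    intro x hx
    rw [hk, hMt, Matrix.mul_neg, Matrix.trace_neg, neg_neg]
    have h1 : (M x * (M x)ᵀ).trace = ∑ i, ∑ j, M x i j ^ 2 := by
      simp only [Matrix.trace, Matrix.diag_apply, Matrix.mul_apply, Matrix.transpose_apply, sq]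
    rw [h1]
    obtain ⟨i, j, hij⟩ : ∃ i j, M x i j ≠ 0 := by
      by_contra hcon
      push Not at hcon
      apply hx
      have h2 : (LieAlgebra.ad ℝ S x : S →ₗ[ℝ] S) = 0 := by
        apply (LinearMap.toMatrix c c).injective
        rw [map_zero]
        ext i j
        exact hcon i j
      refine Subtype.ext (hc _ x.2 fun y hy => ?_)
      have h3 := LinearMap.congr_fun h2 ⟨y, hy⟩
      exact congrArg Subtype.val h3
    exact Finset.sum_pos' (fun i _ => Finset.sum_nonneg fun j _ => sq_nonneg _)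
      ⟨i, Finset.mem_univ i, Finset.sum_pos' (fun j _ => sq_nonneg _) ⟨j, Finset.mem_univ j, by positivity⟩⟩
  let BS : LinearMap.BilinForm ℝ S := -((killingForm ℝ S).compl₂ ((thS S h.invol hθ).toLinearEquiv.toLinearMap))
  have hBS : ∀ x y : S, BS x y = -killingForm ℝ S x (thS S h.invol hθ y) := fun x y => rfl
  have hinv : ∀ x : S, thS S h.invol hθ (thS S h.invol hθ x) = x := fun x => Subtype.ext (h.invol _)
  obtain ⟨v, hv⟩ := exists_onb BS (fun x y => by
    rw [hBS, hBS, ← LieAlgebra.killingForm_of_equiv_apply (thS S h.invol hθ) x, hinv]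
    congr 1
    exact LieModule.traceForm_comm ℝ S S _ _) (fun x hx => by
    rw [hBS]
    exact hpos x hx)
  exact ⟨v, ⟨hinv, fun i j => by rw [← hBS]; exact hv i j⟩⟩

end Pool.Agent.Helper87.FQ
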